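import Mathlib
import Pool.Agent.H.MP_59b15d_al.h60g.Ba

set_option autoImplicit false
set_option linter.unusedSimpArgs false

/-!
# Automorphisms of two adjacent handles
-/

namespace Pool.MP_59b15d_al.H95G

open Pool.MP_59b15d_al.H24T Pool.MP_59b15d_al.H76R Pool.MP_59b15d_al.H73E
open Pool.MP_59b15d_al.H60G

section

variable {m : ℕ} {G : Type*} [Group G] {a b : Fin m → G}

theorem exists_A (h : IsSurf a b) (k : ℕ) (hk : k < m) :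
    ∃ T ∈ MR h k (k + 1), T (ex a k) = ex a k ∧ T (ex b k) = ex b k * ex a k := by
  refine ⟨TA h ⟨k, hk⟩, TA_mem h _ le_rfl (Nat.lt_succ_self k), ?_, ?_⟩
  · rw [ex_lt a hk, TA_a]
  · rw [ex_lt a hk, ex_lt b hk, TA_b]

theorem exists_B (h : IsSurf a b) (k : ℕ) (hk : k < m) :
    ∃ T ∈ MR h k (k + 1), T (ex a k) = ex a k * ex b k ∧ T (ex b k) = ex b k := by
  refine ⟨TB h ⟨k, hk⟩, TB_mem h _ le_rfl (Nat.lt_succ_self k), ?_, ?_⟩
  · rw [ex_lt a hk, ex_lt b hk, TB_a]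
  · rw [ex_lt b hk, TB_b]

theorem exists_C (h : IsSurf a b) (k : ℕ) (hk : k + 1 < m) :
    ∃ T ∈ MR h k (k + 2),
      T (ex a k) = ex a k * ((ex a (k + 1))⁻¹ * ex b k) ∧
      T (ex a (k + 1)) = ((ex a (k + 1))⁻¹ * ex b k)⁻¹ * ex a (k + 1) *
        ((ex a (k + 1))⁻¹ * ex b k) ∧
      T (ex b k) = ((ex a (k + 1))⁻¹ * ex b k)⁻¹ * ex a (k + 1) *
        ((ex a (k + 1))⁻¹ * ex b k) * ((ex a (k + 1))⁻¹ * ex b k) ∧
      T (ex b (k + 1)) = ex b (k + 1) * ((ex a (k + 1))⁻¹ * ex b k) := by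
  have hk' : k < m := by omega
  refine ⟨TC h ⟨k, hk'⟩ ⟨k + 1, hk⟩ rfl, TC_mem h _ _ rfl le_rfl (by simp), ?_, ?_, ?_, ?_⟩
  · rw [ex_lt a hk, ex_lt a hk', ex_lt b hk', TC_ai]
  · rw [ex_lt a hk, ex_lt b hk', TC_aj]
  · rw [ex_lt a hk, ex_lt b hk', TC_bi]
  · rw [ex_lt a hk, ex_lt b hk', ex_lt b hk, TC_bj]

/-- If `T x = y` then `T⁻¹ y = x`. -/
theorem inv_of_eq {T : MulAut G} {x y : G} (h : T x = y) : T⁻¹ y = x := by
  rw [← h, MulAut.inv_apply_self]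

/-- `b_{i+1} ↦ b_{i+1} b_i`. -/
theorem slideR (h : IsSurf a b) (i : ℕ) (hi : i + 1 < m) :
    ∃ μ ∈ MR h i (i + 2), μ (ex b (i + 1)) = ex b (i + 1) * ex b i := by
  obtain ⟨T, hT, T1, T2, T3, T4⟩ := exists_C h i hi
  obtain ⟨A, hA, A1, A2⟩ := exists_A h (i + 1) hi
  refine ⟨T * A, Subgroup.mul_mem _ hT (MR_mono h (by omega) le_rfl hA), ?_⟩
  rw [MulAut.mul_apply, A2, map_mul, T4, T2]
  group

/-- `a_i ↦ b_i⁻¹ a_{i+1}`. -/
theorem slideL (h : IsSurf a b) (i : ℕ) (hi : i + 1 < m) :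
    ∃ μ ∈ MR h i (i + 2), μ (ex a i) = (ex b i)⁻¹ * ex a (i + 1) := by
  obtain ⟨T, hT, T1, T2, T3, T4⟩ := exists_C h i hi
  obtain ⟨A, hA, A1, A2⟩ := exists_A h i (by omega)
  have A3 := (MR_fix h hA (i + 1) (Or.inr le_rfl)).1
  refine ⟨A * T⁻¹, Subgroup.mul_mem _ (MR_mono h le_rfl (by omega) hA)
    (Subgroup.inv_mem _ hT), ?_⟩
  have h1 : T⁻¹ (ex a i) = ex a i * (ex b i)⁻¹ * ex a (i + 1) := by
    apply inv_of_eq
    simp only [map_mul, map_inv, T1, T2, T3]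
    group
  rw [MulAut.mul_apply, h1]
  simp only [map_mul, map_inv, A1, A2, A3]
  group

/-- `a_i ↦ b_i⁻¹`. -/
theorem rot (h : IsSurf a b) (i : ℕ) (hi : i < m) :
    ∃ μ ∈ MR h i (i + 1), μ (ex a i) = (ex b i)⁻¹ := by
  obtain ⟨A, hA, A1, A2⟩ := exists_A h i hi
  obtain ⟨B, hB, B1, B2⟩ := exists_B h i hi
  refine ⟨A * B⁻¹, Subgroup.mul_mem _ hA (Subgroup.inv_mem _ hB), ?_⟩
  have h1 : B⁻¹ (ex a i) = ex a i * (ex b i)⁻¹ := by
    apply inv_of_eq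
    simp only [map_mul, map_inv, B1, B2]
    group
  rw [MulAut.mul_apply, h1]
  simp only [map_mul, map_inv, A1, A2]
  group

/-- `a_{i+1}⁻¹ b_i a_{i+1} ↦ b_i`. -/
theorem pull (h : IsSurf a b) (i : ℕ) (hi : i + 1 < m) :
    ∃ μ ∈ MR h i (i + 2), μ ((ex a (i + 1))⁻¹ * ex b i * ex a (i + 1)) = ex b i := by
  obtain ⟨T, hT, T1, T2, T3, T4⟩ := exists_C h i hi
  refine ⟨T, hT, ?_⟩
  simp only [map_mul, map_inv, T2, T3]
  group

/-- `a_{i+1} ↦ b_i⁻¹ a_{i+1}`. -/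
theorem slideS (h : IsSurf a b) (i : ℕ) (hi : i + 1 < m) :
    ∃ μ ∈ MR h i (i + 2), μ (ex a (i + 1)) = (ex b i)⁻¹ * ex a (i + 1) := by
  obtain ⟨T, hT, T1, T2, T3, T4⟩ := exists_C h i hi
  obtain ⟨A, hA, A1, A2⟩ := exists_A h (i + 1) hi
  obtain ⟨B, hB, B1, B2⟩ := exists_B h (i + 1) hi
  have A3 := (MR_fix h hA i (Or.inl (by omega))).2
  have B3 := (MR_fix h hB i (Or.inl (by omega))).2
  have hm : ∀ {f : MulAut G}, f ∈ MR h (i + 1) (i + 1 + 1) → f ∈ MR h i (i + 2) :=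
    fun hf => MR_mono h (by omega) le_rfl hf
  refine ⟨B * T * A * B⁻¹, Subgroup.mul_mem _ (Subgroup.mul_mem _ (Subgroup.mul_mem _ (hm hB) hT)
    (hm hA)) (Subgroup.inv_mem _ (hm hB)), ?_⟩
  have h1 : B⁻¹ (ex a (i + 1)) = ex a (i + 1) * (ex b (i + 1))⁻¹ := by
    apply inv_of_eq
    simp only [map_mul, map_inv, B1, B2]
    group
  rw [MulAut.mul_apply, MulAut.mul_apply, MulAut.mul_apply, h1]
  simp only [map_mul, map_inv, A1, A2, T2, T3, T4, B1, B2, B3]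
  group

/-- The basic move `P = A_{i+1} B_{i+1}⁻¹ C B_{i+1}`. -/
theorem exists_P (h : IsSurf a b) (i : ℕ) (hi : i + 1 < m) :
    ∃ P ∈ MR h i (i + 2), P (ex a i) = ex a i * ex b (i + 1) * ex b i ∧
      P (ex b i) = (ex b i)⁻¹ * (ex b (i + 1))⁻¹ * ex b i * ex b (i + 1) * ex b i ∧
      P (ex a (i + 1)) = (ex b i)⁻¹ * (ex b (i + 1))⁻¹ * ex b i * ex b (i + 1) * ex a (i + 1) *
        ex b (i + 1) * ex b i := by
  obtain ⟨T, hT, T1, T2, T3, T4⟩ := exists_C h i hi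
  obtain ⟨A, hA, A1, A2⟩ := exists_A h (i + 1) hi
  obtain ⟨B, hB, B1, B2⟩ := exists_B h (i + 1) hi
  have A3 := MR_fix h hA i (Or.inl (by omega))
  have B3 := MR_fix h hB i (Or.inl (by omega))
  have hm : ∀ {f : MulAut G}, f ∈ MR h (i + 1) (i + 1 + 1) → f ∈ MR h i (i + 2) :=
    fun hf => MR_mono h (by omega) le_rfl hf
  have h1 : B⁻¹ (ex a (i + 1)) = ex a (i + 1) * (ex b (i + 1))⁻¹ := by
    apply inv_of_eq
    simp only [map_mul, map_inv, B1, B2]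
    group
  have h2 : B⁻¹ (ex b (i + 1)) = ex b (i + 1) := inv_of_eq B2
  have h3 : B⁻¹ (ex a i) = ex a i := inv_of_eq B3.1
  have h4 : B⁻¹ (ex b i) = ex b i := inv_of_eq B3.2
  refine ⟨A * B⁻¹ * T * B, Subgroup.mul_mem _ (Subgroup.mul_mem _ (Subgroup.mul_mem _ (hm hA)
    (Subgroup.inv_mem _ (hm hB))) hT) (hm hB), ?_, ?_, ?_⟩
  · rw [MulAut.mul_apply, MulAut.mul_apply, MulAut.mul_apply, B3.1]
    simp only [map_mul, map_inv, A1, A2, A3.1, A3.2, T1, T2, T3, T4, h1, h2, h3, h4]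
    group
  · rw [MulAut.mul_apply, MulAut.mul_apply, MulAut.mul_apply, B3.2]
    simp only [map_mul, map_inv, A1, A2, A3.1, A3.2, T1, T2, T3, T4, h1, h2, h3, h4]
    group
  · rw [MulAut.mul_apply, MulAut.mul_apply, MulAut.mul_apply, B1]
    simp only [map_mul, map_inv, A1, A2, A3.1, A3.2, T1, T2, T3, T4, h1, h2, h3, h4]
    group

end

end Pool.MP_59b15d_al.H95G
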