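import Mathlib
import Pool.Agent.H.MP_59b15d_al.h60g.Bl
import Pool.Agent.H.MP_59b15d_al.h95g.Two

set_option autoImplicit false

/-!
# Products of the loops `b_k` and mapping classes carrying one loop to them
-/

namespace Pool.MP_59b15d_al.H95G

open Pool.MP_59b15d_al.H24T Pool.MP_59b15d_al.H76R Pool.MP_59b15d_al.H73E
open Pool.MP_59b15d_al.H60G

section

variable {m : ℕ} {G : Type*} [Group G] {a b : Fin m → G}

/-- The product of the `b_k`, `k ∈ e`, `lo ≤ k < lo + len`, in decreasing order. -/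
def Wd (b : Fin m → G) (e : Finset ℕ) (lo : ℕ) : ℕ → G
  | 0 => 1
  | k + 1 => (if lo + k ∈ e then ex b (lo + k) else 1) * Wd b e lo k

theorem Wd_zero (b : Fin m → G) (e : Finset ℕ) (lo : ℕ) : Wd b e lo 0 = 1 := rfl

theorem Wd_succ (b : Fin m → G) (e : Finset ℕ) (lo k : ℕ) :
    Wd b e lo (k + 1) = (if lo + k ∈ e then ex b (lo + k) else 1) * Wd b e lo k := rfl

theorem Wd_succ_mem (b : Fin m → G) (e : Finset ℕ) (lo k : ℕ) (hk : lo + k ∈ e) :
    Wd b e lo (k + 1) = ex b (lo + k) * Wd b e lo k := by rw [Wd_succ, if_pos hk]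

theorem Wd_succ_not (b : Fin m → G) (e : Finset ℕ) (lo k : ℕ) (hk : lo + k ∉ e) :
    Wd b e lo (k + 1) = Wd b e lo k := by rw [Wd_succ, if_neg hk, one_mul]

theorem Wd_add (b : Fin m → G) (e : Finset ℕ) (lo p q : ℕ) :
    Wd b e lo (p + q) = Wd b e (lo + p) q * Wd b e lo p := by
  induction q with
  | zero => simp [Wd_zero]
  | succ q ih => rw [← Nat.add_assoc, Wd_succ, Wd_succ, ih, mul_assoc, Nat.add_assoc]

theorem Wd_triv (b : Fin m → G) (e : Finset ℕ) (lo : ℕ) (k : ℕ)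
    (h1 : ∀ l, lo ≤ l → l < lo + k → l ∉ e) : Wd b e lo k = 1 := by
  induction k with
  | zero => rfl
  | succ k ih =>
    rw [Wd_succ_not b e lo k (h1 _ (by omega) (by omega))]
    exact ih fun l h2 h3 => h1 l h2 (by omega)

theorem Wd_congr (b : Fin m → G) (e e' : Finset ℕ) (lo : ℕ) (k : ℕ)
    (h1 : ∀ l, lo ≤ l → l < lo + k → (l ∈ e ↔ l ∈ e')) : Wd b e lo k = Wd b e' lo k := by
  induction k with
  | zero => rfl
  | succ k ih =>
    rw [Wd_succ, Wd_succ, ih fun l h2 h3 => h1 l h2 (by omega)]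
    have h2 := h1 (lo + k) (by omega) (by omega)
    by_cases h3 : lo + k ∈ e
    · rw [if_pos h3, if_pos (h2.1 h3)]
    · rw [if_neg h3, if_neg fun h4 => h3 (h2.2 h4)]

/-- An automorphism fixing the letters fixes the word. -/
theorem Wd_fix {f : MulAut G} (e : Finset ℕ) (lo k : ℕ)
    (h1 : ∀ l, lo ≤ l → l < lo + k → f (ex b l) = ex b l) : f (Wd b e lo k) = Wd b e lo k := by
  induction k with
  | zero => exact map_one f
  | succ k ih =>
    have h2 := h1 (lo + k) (by omega) (by omega)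
    rw [Wd_succ, map_mul, ih fun l h2 h3 => h1 l h2 (by omega)]
    by_cases h3 : lo + k ∈ e
    · rw [if_pos h3, h2]
    · rw [if_neg h3, map_one]

/-- Right claim. -/
theorem claimR (h : IsSurf a b) (e : Finset ℕ) (j : ℕ) (hj : j ≤ m) (hne : ∃ l, l < j ∧ l ∈ e) :
    ∃ μ ∈ MR h 0 j, μ (ex b (j - 1)) = Wd b e 0 j := by
  induction j with
  | zero => obtain ⟨l, hl, -⟩ := hne; omega
  | succ j ih =>
    by_cases h0 : ∃ l, l < j ∧ l ∈ e
    · obtain ⟨μ, h1, h2⟩ := ih (by omega) h0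
      obtain ⟨i, rfl⟩ : ∃ i, j = i + 1 := by
        obtain ⟨l, hl, -⟩ := h0
        exact ⟨j - 1, by omega⟩
      have hf := (MR_fix h h1 (i + 1) (Or.inr le_rfl)).2
      have h1' : μ ∈ MR h 0 (i + 1 + 1) := MR_mono h le_rfl (by omega) h1
      simp only [Nat.add_sub_cancel] at h2 ⊢
      by_cases h3 : i + 1 ∈ e
      · obtain ⟨ν, h4, h5⟩ := slideR h i (by omega)
        refine ⟨μ * ν, Subgroup.mul_mem _ h1' (MR_mono h (by omega) le_rfl h4), ?_⟩
        rw [MulAut.mul_apply, h5, map_mul, hf, h2,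
          Wd_succ_mem b e 0 (i + 1) (by rwa [Nat.zero_add]), Nat.zero_add]
      · obtain ⟨σ, h4, h5, -⟩ := exists_swap' h i (by omega)
        refine ⟨μ * σ, Subgroup.mul_mem _ h1' (MR_mono h (by omega) le_rfl h4), ?_⟩
        rw [MulAut.mul_apply, h5.2, h2, Wd_succ_not b e 0 (i + 1) (by rwa [Nat.zero_add])]
    · have h1 : j ∈ e := by
        obtain ⟨l, hl, hl2⟩ := hne
        rcases Nat.lt_succ_iff_lt_or_eq.1 hl with h3 | h3
        · exact absurd ⟨l, h3, hl2⟩ h0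
        · rwa [← h3]
      refine ⟨1, Subgroup.one_mem _, ?_⟩
      have h2 : Wd b e 0 j = 1 := Wd_triv b e 0 j fun l _ h3 h4 => h0 ⟨l, by omega, h4⟩
      rw [MulAut.one_apply, Wd_succ, Nat.zero_add, if_pos h1, h2, mul_one, Nat.add_sub_cancel]

/-- Left claim. -/
theorem claimL (h : IsSurf a b) (e : Finset ℕ) (len : ℕ) : ∀ lo, lo + len ≤ m →
    (∃ l, lo ≤ l ∧ l < lo + len ∧ l ∈ e) →
    ∃ μ ∈ MR h lo (lo + len), μ (ex a lo)⁻¹ = Wd b e lo len := by
  induction len with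
  | zero => intro lo _ ⟨l, h1, h2, _⟩; omega
  | succ len ih =>
    intro lo hm hne
    have hs : Wd b e lo (len + 1) =
        Wd b e (lo + 1) len * (if lo ∈ e then ex b lo else 1) := by
      rw [Nat.add_comm len 1, Wd_add, Wd_succ, Wd_zero, mul_one]
      rfl
    by_cases h0 : ∃ l, lo + 1 ≤ l ∧ l < lo + 1 + len ∧ l ∈ e
    · obtain ⟨μ, h1, h2⟩ := ih (lo + 1) (by omega) h0
      have hlen : 0 < len := by
        obtain ⟨l, h3, h4, _⟩ := h0
        omega
      have hf := MR_fix h h1 lo (Or.inl (by omega))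
      have h1' : μ ∈ MR h lo (lo + (len + 1)) := MR_mono h (by omega) (by omega) h1
      by_cases h3 : lo ∈ e
      · obtain ⟨ν, h4, h5⟩ := slideL h lo (by omega)
        refine ⟨μ * ν, Subgroup.mul_mem _ h1' (MR_mono h le_rfl (by omega) h4), ?_⟩
        rw [MulAut.mul_apply, map_inv, h5, hs, if_pos h3, mul_inv_rev, inv_inv, map_mul, h2,
          hf.2]
      · obtain ⟨σ, h4, h5, -⟩ := exists_swap' h lo (by omega)
        have h6 : σ⁻¹ (ex a lo) = ex a (lo + 1) := inv_of_eq h5.1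
        refine ⟨μ * σ⁻¹, Subgroup.mul_mem _ h1' (Subgroup.inv_mem _
          (MR_mono h le_rfl (by omega) h4)), ?_⟩
        rw [MulAut.mul_apply, map_inv, h6, h2, hs, if_neg h3, mul_one]
    · have h1 : lo ∈ e := by
        obtain ⟨l, hl, hl2, hl3⟩ := hne
        by_cases h3 : l = lo
        · rwa [← h3]
        · exact absurd ⟨l, by omega, by omega, hl3⟩ h0
      obtain ⟨μ, h4, h5⟩ := rot h lo (by omega)
      have h2 : Wd b e (lo + 1) len = 1 :=
        Wd_triv b e _ _ fun l h6 h7 h8 => h0 ⟨l, h6, h7, h8⟩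
      refine ⟨μ, MR_mono h le_rfl (by omega) h4, ?_⟩
      rw [map_inv, h5, inv_inv, hs, if_pos h1, h2, one_mul]

end

end Pool.MP_59b15d_al.H95G
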