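import Mathlib
import Pool.Agent.H.MP_59b15d_al.h95g.Words

set_option autoImplicit false

/-!
# Subgroups of handles, normal subgroups of them, and the pigeonhole lemma
-/

namespace Pool.MP_59b15d_al.H95G

open Pool.MP_59b15d_al.H24T Pool.MP_59b15d_al.H76R Pool.MP_59b15d_al.H73E
open Pool.MP_59b15d_al.H60G

section

variable {m : ℕ} {G : Type*} [Group G] {a b : Fin m → G}

/-- The subgroup generated by the handles `lo, …, hi - 1`. -/
def Hd (a b : Fin m → G) (lo hi : ℕ) : Subgroup G :=
  Subgroup.closure {g | ∃ k, lo ≤ k ∧ k < hi ∧ (g = ex a k ∨ g = ex b k)}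

theorem a_Hd {lo hi k : ℕ} (h1 : lo ≤ k) (h2 : k < hi) : ex a k ∈ Hd a b lo hi :=
  Subgroup.subset_closure ⟨k, h1, h2, Or.inl rfl⟩

theorem b_Hd {lo hi k : ℕ} (h1 : lo ≤ k) (h2 : k < hi) : ex b k ∈ Hd a b lo hi :=
  Subgroup.subset_closure ⟨k, h1, h2, Or.inr rfl⟩

theorem Hd_mono {lo hi lo' hi' : ℕ} (h1 : lo' ≤ lo) (h2 : hi ≤ hi') :
    Hd a b lo hi ≤ Hd a b lo' hi' := by
  rw [Hd, Subgroup.closure_le]
  rintro g ⟨k, h3, h4, rfl | rfl⟩
  · exact a_Hd (by omega) (by omega)
  · exact b_Hd (by omega) (by omega)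

theorem Wd_Hd (e : Finset ℕ) (lo k : ℕ) : Wd b e lo k ∈ Hd a b lo (lo + k) := by
  induction k with
  | zero => exact Subgroup.one_mem _
  | succ k ih =>
    rw [Wd_succ]
    refine Subgroup.mul_mem _ ?_ (Hd_mono le_rfl (by omega) ih)
    by_cases h : lo + k ∈ e
    · rw [if_pos h]
      exact b_Hd (by omega) (by omega)
    · rw [if_neg h]
      exact Subgroup.one_mem _

/-- The automorphisms preserving a subgroup. -/
def stabS (H : Subgroup G) : Subgroup (MulAut G) where
  carrier := {f | ∀ x, f x ∈ H ↔ x ∈ H}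
  one_mem' := fun _ => Iff.rfl
  mul_mem' := by
    intro f f' h1 h2 x
    rw [MulAut.mul_apply, h1, h2]
  inv_mem' := by
    intro f h1 x
    rw [← h1 (f⁻¹ x), MulAut.apply_inv_self]

theorem mem_stabS {H : Subgroup G} {f : MulAut G} : f ∈ stabS H ↔ ∀ x, f x ∈ H ↔ x ∈ H := Iff.rfl

/-- An automorphism preserves `H` if it and its inverse carry a generating set into `H`. -/
theorem stabS_of {S : Set G} {f : MulAut G} (h1 : ∀ x ∈ S, f x ∈ Subgroup.closure S)
    (h2 : ∀ x ∈ S, f⁻¹ x ∈ Subgroup.closure S) : f ∈ stabS (Subgroup.closure S) := by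
  have h3 : ∀ x ∈ Subgroup.closure S, f x ∈ Subgroup.closure S := by
    intro x hx
    have : Subgroup.closure S ≤ (Subgroup.closure S).comap f.toMonoidHom := by
      rw [Subgroup.closure_le]
      exact h1
    exact this hx
  have h4 : ∀ x ∈ Subgroup.closure S, f⁻¹ x ∈ Subgroup.closure S := by
    intro x hx
    have : Subgroup.closure S ≤ (Subgroup.closure S).comap (f⁻¹).toMonoidHom := by
      rw [Subgroup.closure_le]
      exact h2
    exact this hx
  intro x
  refine ⟨fun hx => ?_, h3 x⟩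
  have := h4 _ hx
  rwa [MulAut.inv_apply_self] at this

/-- The twists of some handles preserve the subgroups of more handles. -/
theorem MR_Hd (h : IsSurf a b) {lo hi lo' hi' : ℕ} (h1 : lo' ≤ lo) (h2 : hi ≤ hi') :
    MR h lo hi ≤ stabS (Hd a b lo' hi') := by
  have hA : ∀ k : Fin m, ex a (k : ℕ) = a k := fun k => ex_val a k
  have hB : ∀ k : Fin m, ex b (k : ℕ) = b k := fun k => ex_val b k
  have exge : ∀ k, m ≤ k → ex a k = 1 ∧ ex b k = 1 := fun k hk => ⟨ex_ge a hk, ex_ge b hk⟩
  apply MR_le h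
  · intro i h3 h4
    have ia : a i ∈ Hd a b lo' hi' := by rw [← hA]; exact a_Hd (by omega) (by omega)
    have ib : b i ∈ Hd a b lo' hi' := by rw [← hB]; exact b_Hd (by omega) (by omega)
    apply stabS_of
    · rintro g ⟨k, h5, h6, rfl | rfl⟩
      · by_cases hk : k < m
        · rw [ex_lt a hk, TA_a, ← ex_lt a hk]
          exact a_Hd h5 h6
        · rw [(exge k (by omega)).1, map_one]
          exact Subgroup.one_mem _
      · by_cases hk : k < m
        · rw [ex_lt b hk]
          by_cases hki : (⟨k, hk⟩ : Fin m) = i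
          · subst hki
            rw [TA_b]
            exact Subgroup.mul_mem _ ib ia
          · rw [TA_b_ne h hki, ← ex_lt b hk]
            exact b_Hd h5 h6
        · rw [(exge k (by omega)).2, map_one]
          exact Subgroup.one_mem _
    · rintro g ⟨k, h5, h6, rfl | rfl⟩
      · by_cases hk : k < m
        · have : (TA h i)⁻¹ (ex a k) = ex a k := by
            apply inv_of_eq
            rw [ex_lt a hk, TA_a]
          rw [this]
          exact a_Hd h5 h6
        · rw [(exge k (by omega)).1, map_one]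
          exact Subgroup.one_mem _
      · by_cases hk : k < m
        · by_cases hki : (⟨k, hk⟩ : Fin m) = i
          · have : (TA h i)⁻¹ (ex b k) = b i * (a i)⁻¹ := by
              apply inv_of_eq
              rw [map_mul, map_inv, TA_a, TA_b, mul_inv_cancel_right, ex_lt b hk, hki]
            rw [this]
            exact Subgroup.mul_mem _ ib (Subgroup.inv_mem _ ia)
          · have : (TA h i)⁻¹ (ex b k) = ex b k := by
              apply inv_of_eq
              rw [ex_lt b hk, TA_b_ne h hki]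
            rw [this]
            exact b_Hd h5 h6
        · rw [(exge k (by omega)).2, map_one]
          exact Subgroup.one_mem _
  · intro i h3 h4
    have ia : a i ∈ Hd a b lo' hi' := by rw [← hA]; exact a_Hd (by omega) (by omega)
    have ib : b i ∈ Hd a b lo' hi' := by rw [← hB]; exact b_Hd (by omega) (by omega)
    apply stabS_of
    · rintro g ⟨k, h5, h6, rfl | rfl⟩
      · by_cases hk : k < m
        · rw [ex_lt a hk]
          by_cases hki : (⟨k, hk⟩ : Fin m) = i
          · subst hki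
            rw [TB_a]
            exact Subgroup.mul_mem _ ia ib
          · rw [TB_a_ne h hki, ← ex_lt a hk]
            exact a_Hd h5 h6
        · rw [(exge k (by omega)).1, map_one]
          exact Subgroup.one_mem _
      · by_cases hk : k < m
        · rw [ex_lt b hk, TB_b, ← ex_lt b hk]
          exact b_Hd h5 h6
        · rw [(exge k (by omega)).2, map_one]
          exact Subgroup.one_mem _
    · rintro g ⟨k, h5, h6, rfl | rfl⟩
      · by_cases hk : k < m
        · by_cases hki : (⟨k, hk⟩ : Fin m) = i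
          · have : (TB h i)⁻¹ (ex a k) = a i * (b i)⁻¹ := by
              apply inv_of_eq
              rw [map_mul, map_inv, TB_a, TB_b, mul_inv_cancel_right, ex_lt a hk, hki]
            rw [this]
            exact Subgroup.mul_mem _ ia (Subgroup.inv_mem _ ib)
          · have : (TB h i)⁻¹ (ex a k) = ex a k := by
              apply inv_of_eq
              rw [ex_lt a hk, TB_a_ne h hki]
            rw [this]
            exact a_Hd h5 h6
        · rw [(exge k (by omega)).1, map_one]
          exact Subgroup.one_mem _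
      · by_cases hk : k < m
        · have : (TB h i)⁻¹ (ex b k) = ex b k := by
            apply inv_of_eq
            rw [ex_lt b hk, TB_b]
          rw [this]
          exact b_Hd h5 h6
        · rw [(exge k (by omega)).2, map_one]
          exact Subgroup.one_mem _
  · intro i j hij h3 h4
    have ia : a i ∈ Hd a b lo' hi' := by rw [← hA]; exact a_Hd (by omega) (by omega)
    have ib : b i ∈ Hd a b lo' hi' := by rw [← hB]; exact b_Hd (by omega) (by omega)
    have ja : a j ∈ Hd a b lo' hi' := by rw [← hA]; exact a_Hd (by omega) (by omega)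
    have jb : b j ∈ Hd a b lo' hi' := by rw [← hB]; exact b_Hd (by omega) (by omega)
    have hu : (a j)⁻¹ * b i ∈ Hd a b lo' hi' := Subgroup.mul_mem _ (Subgroup.inv_mem _ ja) ib
    apply stabS_of
    · rintro g ⟨k, h5, h6, rfl | rfl⟩
      · by_cases hk : k < m
        · rw [ex_lt a hk]
          by_cases hki : (⟨k, hk⟩ : Fin m) = i
          · rw [hki, TC_ai]
            exact Subgroup.mul_mem _ ia hu
          · by_cases hkj : (⟨k, hk⟩ : Fin m) = j
            · rw [hkj, TC_aj]
              exact Subgroup.mul_mem _ (Subgroup.mul_mem _ (Subgroup.inv_mem _ hu) ja) hu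
            · rw [TC_a_ne h hij hki hkj, ← ex_lt a hk]
              exact a_Hd h5 h6
        · rw [(exge k (by omega)).1, map_one]
          exact Subgroup.one_mem _
      · by_cases hk : k < m
        · rw [ex_lt b hk]
          by_cases hki : (⟨k, hk⟩ : Fin m) = i
          · rw [hki, TC_bi]
            exact Subgroup.mul_mem _ (Subgroup.mul_mem _ (Subgroup.mul_mem _
              (Subgroup.inv_mem _ hu) ja) hu) hu
          · by_cases hkj : (⟨k, hk⟩ : Fin m) = j
            · rw [hkj, TC_bj]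
              exact Subgroup.mul_mem _ jb hu
            · rw [TC_b_ne h hij hki hkj, ← ex_lt b hk]
              exact b_Hd h5 h6
        · rw [(exge k (by omega)).2, map_one]
          exact Subgroup.one_mem _
    · rintro g ⟨k, h5, h6, rfl | rfl⟩
      · by_cases hk : k < m
        · by_cases hki : (⟨k, hk⟩ : Fin m) = i
          · have : (TC h i j hij)⁻¹ (ex a k) = a i * ((b i)⁻¹ * a j) := by
              apply inv_of_eq
              simp only [map_mul, map_inv, TC_ai, TC_aj, TC_bi]
              rw [ex_lt a hk, hki]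
              group
            rw [this]
            exact Subgroup.mul_mem _ ia (Subgroup.mul_mem _ (Subgroup.inv_mem _ ib) ja)
          · by_cases hkj : (⟨k, hk⟩ : Fin m) = j
            · have : (TC h i j hij)⁻¹ (ex a k) = (a j)⁻¹ * b i * a j * (b i)⁻¹ * a j := by
                apply inv_of_eq
                simp only [map_mul, map_inv, TC_ai, TC_aj, TC_bi]
                rw [ex_lt a hk, hkj]
                group
              rw [this]
              exact Subgroup.mul_mem _ (Subgroup.mul_mem _ (Subgroup.mul_mem _ hu ja)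
                (Subgroup.inv_mem _ ib)) ja
            · have : (TC h i j hij)⁻¹ (ex a k) = ex a k := by
                apply inv_of_eq
                rw [ex_lt a hk, TC_a_ne h hij hki hkj]
              rw [this]
              exact a_Hd h5 h6
        · rw [(exge k (by omega)).1, map_one]
          exact Subgroup.one_mem _
      · by_cases hk : k < m
        · by_cases hki : (⟨k, hk⟩ : Fin m) = i
          · have : (TC h i j hij)⁻¹ (ex b k) = (a j)⁻¹ * b i * a j := by
              apply inv_of_eq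
              simp only [map_mul, map_inv, TC_ai, TC_aj, TC_bi]
              rw [ex_lt b hk, hki]
              group
            rw [this]
            exact Subgroup.mul_mem _ hu ja
          · by_cases hkj : (⟨k, hk⟩ : Fin m) = j
            · have : (TC h i j hij)⁻¹ (ex b k) = b j * ((b i)⁻¹ * a j) := by
                apply inv_of_eq
                simp only [map_mul, map_inv, TC_bj, TC_aj, TC_bi]
                rw [ex_lt b hk, hkj]
                group
              rw [this]
              exact Subgroup.mul_mem _ jb (Subgroup.mul_mem _ (Subgroup.inv_mem _ ib) ja)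
            · have : (TC h i j hij)⁻¹ (ex b k) = ex b k := by
                apply inv_of_eq
                rw [ex_lt b hk, TC_b_ne h hij hki hkj]
              rw [this]
              exact b_Hd h5 h6
        · rw [(exge k (by omega)).2, map_one]
          exact Subgroup.one_mem _

theorem MR_map (h : IsSurf a b) {lo hi lo' hi' : ℕ} (h1 : lo' ≤ lo) (h2 : hi ≤ hi')
    {f : MulAut G} (hf : f ∈ MR h lo hi) {g : G} (hg : g ∈ Hd a b lo' hi') :
    f g ∈ Hd a b lo' hi' := (MR_Hd h h1 h2 hf g).2 hg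

/-- The twists of some handles fix the elements of the other ones. -/
theorem MR_fix_Hd (h : IsSurf a b) {lo hi lo' hi' : ℕ} (h1 : hi' ≤ lo ∨ hi ≤ lo')
    {f : MulAut G} (hf : f ∈ MR h lo hi) {g : G} (hg : g ∈ Hd a b lo' hi') : f g = g := by
  have h2 : Hd a b lo' hi' ≤ MonoidHom.eqLocus f.toMonoidHom (MonoidHom.id G) := by
    rw [Hd, Subgroup.closure_le]
    rintro g ⟨k, h3, h4, rfl | rfl⟩
    · exact (MR_fix h hf k (by omega)).1
    · exact (MR_fix h hf k (by omega)).2
  exact h2 hg

/-- Invariant subgroups, normal in the first `n` handles. -/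
structure KK (h : IsSurf a b) (n : ℕ) (K : Subgroup G) : Prop where
  conj : ∀ r ∈ Hd a b 0 n, ∀ k ∈ K, r * k * r⁻¹ ∈ K
  inv : ∀ f ∈ MR h 0 n, ∀ k ∈ K, f k ∈ K

variable {n : ℕ} {K : Subgroup G}

/-- The elements of the first `j` handles commuting with `b_j` modulo `K`. -/
def GG {h : IsSurf a b} (hK : KK h n K) (j : ℕ) (hj : j ≤ n) : Subgroup G where
  carrier := {g | g ∈ Hd a b 0 j ∧ ex b j * g * (ex b j)⁻¹ * g⁻¹ ∈ K}
  one_mem' := by
    refine ⟨Subgroup.one_mem _, ?_⟩
    have : ex b j * 1 * (ex b j)⁻¹ * 1⁻¹ = 1 := by group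
    rw [this]
    exact K.one_mem
  mul_mem' := by
    rintro g g' ⟨h1, h2⟩ ⟨h3, h4⟩
    refine ⟨Subgroup.mul_mem _ h1 h3, ?_⟩
    have h5 := K.mul_mem h2 (hK.conj g (Hd_mono le_rfl hj h1) _ h4)
    have h6 : ex b j * g * (ex b j)⁻¹ * g⁻¹ * (g * (ex b j * g' * (ex b j)⁻¹ * g'⁻¹) * g⁻¹) =
        ex b j * (g * g') * (ex b j)⁻¹ * (g * g')⁻¹ := by group
    rwa [h6] at h5
  inv_mem' := by
    rintro g ⟨h1, h2⟩
    refine ⟨Subgroup.inv_mem _ h1, ?_⟩
    have h5 := hK.conj g⁻¹ (Hd_mono le_rfl hj (Subgroup.inv_mem _ h1)) _ (K.inv_mem h2)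
    have h6 : g⁻¹ * (ex b j * g * (ex b j)⁻¹ * g⁻¹)⁻¹ * g⁻¹⁻¹ =
        ex b j * g⁻¹ * (ex b j)⁻¹ * g⁻¹⁻¹ := by group
    rwa [h6] at h5

theorem mem_GG {h : IsSurf a b} (hK : KK h n K) {j : ℕ} (hj : j ≤ n) {g : G} :
    g ∈ GG hK j hj ↔ g ∈ Hd a b 0 j ∧ ex b j * g * (ex b j)⁻¹ * g⁻¹ ∈ K := Iff.rfl

theorem GG_inv {h : IsSurf a b} (hK : KK h n K) {j : ℕ} (hj : j ≤ n) {f : MulAut G}
    (hf : f ∈ MR h 0 j) {g : G} (hg : g ∈ GG hK j hj) : f g ∈ GG hK j hj := by
  refine ⟨MR_map h le_rfl le_rfl hf hg.1, ?_⟩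
  have h1 := hK.inv f (MR_mono h le_rfl hj hf) _ hg.2
  have h2 := (MR_fix h hf j (Or.inr le_rfl)).2
  simp only [map_mul, map_inv, h2] at h1
  exact h1

/-- If one `b_l` is in `GG` then everything is. -/
theorem GG_all {h : IsSurf a b} (hK : KK h n K) {j : ℕ} (hj : j ≤ n) (hjm : j ≤ m) {l : ℕ}
    (hl : l < j) (hb : ex b l ∈ GG hK j hj) : ∀ g ∈ Hd a b 0 j, g ∈ GG hK j hj := by
  have hup : ∀ k, k + 1 < j → ex b k ∈ GG hK j hj → ex b (k + 1) ∈ GG hK j hj := by
    intro k hk h1
    obtain ⟨σ, s1, s2, -⟩ := exists_swap' h k (by omega)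
    have h2 := GG_inv hK hj (Subgroup.inv_mem _ (MR_mono h (Nat.zero_le _) (by omega) s1)) h1
    rwa [inv_of_eq s2.2] at h2
  have hdn : ∀ k, k + 1 < j → ex b (k + 1) ∈ GG hK j hj → ex b k ∈ GG hK j hj := by
    intro k hk h1
    obtain ⟨σ, s1, s2, -⟩ := exists_swap' h k (by omega)
    have h2 := GG_inv hK hj (MR_mono h (Nat.zero_le _) (by omega) s1) h1
    rwa [s2.2] at h2
  have h0 : ∀ k, k ≤ l → ex b (l - k) ∈ GG hK j hj := by
    intro k
    induction k with
    | zero => intro _; exact hb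
    | succ k ih =>
      intro hk
      have h1 := ih (by omega)
      have h2 : l - k = l - (k + 1) + 1 := by omega
      rw [h2] at h1
      exact hdn _ (by omega) h1
  have hall : ∀ k, k < j → ex b k ∈ GG hK j hj := by
    intro k
    induction k with
    | zero =>
      intro _
      have := h0 l le_rfl
      rwa [Nat.sub_self] at this
    | succ k ih => intro hk; exact hup k hk (ih (by omega))
  intro g hg
  have hle : Hd a b 0 j ≤ GG hK j hj := by
    rw [Hd, Subgroup.closure_le]
    rintro g ⟨k, -, h4, rfl | rfl⟩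
    · obtain ⟨A, hA, A1, A2⟩ := exists_A h k (by omega)
      have h5 := GG_inv hK hj (MR_mono h (Nat.zero_le _) (by omega) hA) (hall k h4)
      rw [A2] at h5
      have h6 := Subgroup.mul_mem _ (Subgroup.inv_mem _ (hall k h4)) h5
      rwa [inv_mul_cancel_left] at h6
    · exact hall k h4
  exact hle hg

theorem GG_of_lt {h : IsSurf a b} (hK : KK h n K) {j : ℕ} (hj : j ≤ n) (hjm : j ≤ m)
    (e e' : Finset ℕ) {l : ℕ} (hl : l < j) (h1 : l ∈ e) (h2 : l ∉ e')
    (h3 : ∀ k, k < l → (k ∈ e ↔ k ∈ e')) (hg : Wd b e 0 j * (Wd b e' 0 j)⁻¹ ∈ GG hK j hj) :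
    ∀ g ∈ Hd a b 0 j, g ∈ GG hK j hj := by
  obtain ⟨q, rfl⟩ : ∃ q, j = l + 1 + q := ⟨j - l - 1, by omega⟩
  set p := Wd b e (l + 1) q with hp
  set p' := Wd b e' (l + 1) q with hp'
  have e1 : Wd b e 0 (l + 1 + q) = p * (ex b l * Wd b e 0 l) := by
    rw [Wd_add, Wd_succ, Nat.zero_add, Nat.zero_add, if_pos h1]
  have e2 : Wd b e' 0 (l + 1 + q) = p' * Wd b e 0 l := by
    rw [Wd_add, Wd_succ, Nat.zero_add, Nat.zero_add, if_neg h2, one_mul,
      Wd_congr b e e' 0 l fun k _ hk => h3 k (by omega)]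
  have e3 : Wd b e 0 (l + 1 + q) * (Wd b e' 0 (l + 1 + q))⁻¹ = p * ex b l * p'⁻¹ := by
    rw [e1, e2]
    group
  rw [e3] at hg
  have hfix : ∀ {f : MulAut G}, f ∈ MR h l (l + 1) → f p = p ∧ f p' = p' := by
    intro f hf
    exact ⟨Wd_fix e _ _ fun k hk _ => (MR_fix h hf k (Or.inr hk)).2,
      Wd_fix e' _ _ fun k hk _ => (MR_fix h hf k (Or.inr hk)).2⟩
  have hin : ∀ {f : MulAut G}, f ∈ MR h l (l + 1) → f ∈ MR h 0 (l + 1 + q) :=
    fun hf => MR_mono h (Nat.zero_le _) (by omega) hf
  obtain ⟨A, hA, A1, A2⟩ := exists_A h l (by omega)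
  have h4 := GG_inv hK hj (hin hA) hg
  simp only [map_mul, map_inv, (hfix hA).1, (hfix hA).2, A2] at h4
  have h5 := Subgroup.mul_mem _ (Subgroup.inv_mem _ hg) h4
  have h6 : (p * ex b l * p'⁻¹)⁻¹ * (p * (ex b l * ex a l) * p'⁻¹) = p' * ex a l * p'⁻¹ := by
    group
  rw [h6] at h5
  obtain ⟨B, hB, B1, B2⟩ := exists_B h l (by omega)
  have h7 := GG_inv hK hj (hin hB) h5
  simp only [map_mul, map_inv, (hfix hB).2, B1] at h7
  have h8 := Subgroup.mul_mem _ (Subgroup.inv_mem _ h5) h7
  have h9 : (p' * ex a l * p'⁻¹)⁻¹ * (p' * (ex a l * ex b l) * p'⁻¹) = p' * ex b l * p'⁻¹ := by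
    group
  rw [h9] at h8
  by_cases hne : ∃ k, l + 1 ≤ k ∧ k < l + 1 + q ∧ k ∈ e'
  · obtain ⟨μ, m1, m2⟩ := claimL h e' q (l + 1) hjm hne
    have hq : 0 < q := by
      obtain ⟨k, k1, k2, -⟩ := hne
      omega
    have m3 := (MR_fix h m1 l (Or.inl (by omega))).2
    have h10 := GG_inv hK hj (Subgroup.inv_mem _ (MR_mono h (Nat.zero_le _) le_rfl m1)) h8
    have h11 : μ⁻¹ (p' * ex b l * p'⁻¹) = (ex a (l + 1))⁻¹ * ex b l * ex a (l + 1) := by
      apply inv_of_eq
      rw [map_mul, map_mul, m3, m2]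
      have : μ (ex a (l + 1)) = p'⁻¹ := by
        have h12 := m2
        rw [map_inv] at h12
        rw [hp', ← h12, inv_inv]
      rw [this]
    rw [h11] at h10
    obtain ⟨ν, n1, n2⟩ := pull h l (by omega)
    have h12 := GG_inv hK hj (MR_mono h (Nat.zero_le _) (by omega) n1) h10
    rw [n2] at h12
    exact GG_all hK hj hjm (l := l) (by omega) h12
  · have h10 : p' = 1 := Wd_triv b e' _ _ fun k k1 k2 k3 => hne ⟨k, k1, k2, k3⟩
    rw [h10, one_mul, inv_one, mul_one] at h8
    exact GG_all hK hj hjm (l := l) (by omega) h8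

/-- The pigeonhole lemma. -/
theorem lemmaP {h : IsSurf a b} (hK : KK h n K) {j : ℕ} (hj : j ≤ n) (hjm : j ≤ m)
    (e e' : Finset ℕ) (hne : ∃ l, l < j ∧ ¬ (l ∈ e ↔ l ∈ e'))
    (hg : Wd b e 0 j * (Wd b e' 0 j)⁻¹ ∈ GG hK j hj) : ∀ g ∈ Hd a b 0 j, g ∈ GG hK j hj := by
  classical
  have h1 := Nat.find_spec hne
  have h2 : ∀ k, k < Nat.find hne → (k ∈ e ↔ k ∈ e') := by
    intro k hk
    by_contra h3
    exact Nat.find_min hne hk ⟨by omega, h3⟩
  by_cases h3 : Nat.find hne ∈ e
  · have h4 : Nat.find hne ∉ e' := fun h5 => h1.2 ⟨fun _ => h5, fun _ => h3⟩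
    exact GG_of_lt hK hj hjm e e' h1.1 h3 h4 h2 hg
  · have h4 : Nat.find hne ∈ e' := by
      by_contra h5
      exact h1.2 ⟨fun h6 => absurd h6 h3, fun h6 => absurd h6 h5⟩
    refine GG_of_lt hK hj hjm e' e h1.1 h4 h3 (fun k hk => (h2 k hk).symm) ?_
    have h5 := Subgroup.inv_mem _ hg
    rwa [mul_inv_rev, inv_inv] at h5

end

end Pool.MP_59b15d_al.H95G
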