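import Mathlib
import Pool.Agent.H.MP_59b15d_al.h95g.Kr

set_option autoImplicit false

/-!
# The recursion
-/

namespace Pool.MP_59b15d_al.H95G

open Pool.MP_59b15d_al.H24T Pool.MP_59b15d_al.H76R Pool.MP_59b15d_al.H73E
open Pool.MP_59b15d_al.H60G

section

variable {m : ℕ} {G : Type*} [Group G] {a b : Fin m → G} {n : ℕ} {K : Subgroup G}

/-- Twists of disjoint groups of handles commute. -/
theorem MR_comm (h : IsSurf a b) {j k : ℕ} (hjk : j ≤ k) {T μ : MulAut G}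
    (hT : T ∈ MR h j k) (hμ : μ ∈ MR h 0 j) (z : G) : T (μ z) = μ (T z) := by
  have hTm : T * μ = μ * T := by
    apply ext_ex h
    intro l hl
    rw [MulAut.mul_apply, MulAut.mul_apply, MulAut.mul_apply, MulAut.mul_apply]
    by_cases hlj : l < j
    · have t1 := MR_fix h hT l (Or.inl hlj)
      have c1 : T (μ (ex a l)) = μ (ex a l) :=
        MR_fix_Hd (lo' := 0) (hi' := j) h (Or.inl le_rfl) hT
          (MR_map h le_rfl le_rfl hμ (a_Hd (Nat.zero_le _) hlj))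
      have c2 : T (μ (ex b l)) = μ (ex b l) :=
        MR_fix_Hd (lo' := 0) (hi' := j) h (Or.inl le_rfl) hT
          (MR_map h le_rfl le_rfl hμ (b_Hd (Nat.zero_le _) hlj))
      exact ⟨by rw [t1.1, c1], by rw [t1.2, c2]⟩
    · by_cases hlk : l < k
      · have t1 := MR_fix h hμ l (Or.inr (by omega))
        have c1 : μ (T (ex a l)) = T (ex a l) :=
          MR_fix_Hd (lo' := j) (hi' := k) h (Or.inr le_rfl) hμ
            (MR_map h le_rfl le_rfl hT (a_Hd (by omega) hlk))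
        have c2 : μ (T (ex b l)) = T (ex b l) :=
          MR_fix_Hd (lo' := j) (hi' := k) h (Or.inr le_rfl) hμ
            (MR_map h le_rfl le_rfl hT (b_Hd (by omega) hlk))
        exact ⟨by rw [t1.1, c1], by rw [t1.2, c2]⟩
      · have t1 := MR_fix h hT l (Or.inr (by omega))
        have t2 := MR_fix h hμ l (Or.inr (by omega))
        exact ⟨by rw [t1.1, t2.1, t1.1], by rw [t1.2, t2.2, t1.2]⟩
  rw [← MulAut.mul_apply, hTm, MulAut.mul_apply]

/-- The moves `P_e`. -/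
theorem exists_Pe (h : IsSurf a b) (j : ℕ) (hj : j < m) (T : MulAut G)
    (hT : T ∈ MR h j (j + 1)) (T1 : T (ex a j) = ex a j * ex b j) (T2 : T (ex b j) = ex b j)
    (e : Finset ℕ) :
    ∃ P ∈ MR h 0 (j + 1), (∀ z ∈ Hd a b 0 j, T (P z) = P z) ∧
      (P (ex a j))⁻¹ * T (P (ex a j)) = (Wd b e 0 j)⁻¹ * ex b j * Wd b e 0 j := by
  by_cases hne : ∃ l, l < j ∧ l ∈ e
  · obtain ⟨i, rfl⟩ : ∃ i, j = i + 1 := by
      obtain ⟨l, hl, -⟩ := hne
      exact ⟨j - 1, by omega⟩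
    obtain ⟨μ, m1, m2⟩ := claimR h e (i + 1) (by omega) hne
    rw [Nat.add_sub_cancel] at m2
    obtain ⟨P, p1, p2, p3, p4⟩ := exists_P h i hj
    have m3 := MR_fix h m1 (i + 1) (Or.inr le_rfl)
    have m1' : μ ∈ MR h 0 (i + 1 + 1) := MR_mono h le_rfl (by omega) m1
    have p1' : P ∈ MR h 0 (i + 1 + 1) := MR_mono h (Nat.zero_le _) (by omega) p1
    have T3 := MR_fix h hT i (Or.inl (by omega))
    have hTm' : ∀ z, T (μ z) = μ (T z) := fun z => MR_comm h (by omega) hT m1 z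
    have hμi : μ⁻¹ (ex a (i + 1)) = ex a (i + 1) := inv_of_eq m3.1
    -- elements of the first handles
    have h1 : ∀ z ∈ Hd a b 0 (i + 1), T (P z) = P z := by
      intro z hz
      have h2 : Hd a b 0 (i + 1) ≤ MonoidHom.eqLocus ((T * P).toMonoidHom) P.toMonoidHom := by
        rw [Hd, Subgroup.closure_le]
        rintro g ⟨k, -, h4, hg⟩
        change T (P g) = P g
        by_cases hki : k = i
        · subst hki
          rcases hg with rfl | rfl
          · rw [p2]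
            simp only [map_mul, map_inv, T2, T3.1, T3.2]
          · rw [p3]
            simp only [map_mul, map_inv, T2, T3.1, T3.2]
        · have t1 := MR_fix h p1 k (Or.inl (by omega))
          have t2 := MR_fix h hT k (Or.inl (by omega))
          rcases hg with rfl | rfl
          · rw [t1.1, t2.1]
          · rw [t1.2, t2.2]
      exact h2 hz
    refine ⟨μ * P * μ⁻¹, Subgroup.mul_mem _ (Subgroup.mul_mem _ m1' p1')
      (Subgroup.inv_mem _ m1'), ?_, ?_⟩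
    · intro z hz
      rw [MulAut.mul_apply, MulAut.mul_apply, hTm',
        h1 _ (MR_map h le_rfl le_rfl (Subgroup.inv_mem _ m1) hz)]
    · have h3 : (P (ex a (i + 1)))⁻¹ * T (P (ex a (i + 1))) =
          (ex b i)⁻¹ * ex b (i + 1) * ex b i := by
        rw [p4]
        simp only [map_mul, map_inv, T1, T2, T3.1, T3.2]
        group
      rw [MulAut.mul_apply, MulAut.mul_apply, hμi, hTm', ← map_inv, ← map_mul, h3]
      simp only [map_mul, map_inv, m2, m3.2]
  · refine ⟨1, Subgroup.one_mem _, fun z hz => ?_, ?_⟩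
    · rw [MulAut.one_apply]
      exact MR_fix_Hd h (Or.inl le_rfl) hT hz
    · rw [MulAut.one_apply, T1, Wd_triv b e 0 j fun l _ h1 h2 => hne ⟨l, by omega, h2⟩]
      group

/-- A family of automorphisms of the first `j` handles which carry `a_{j-1}` to different classes
modulo `K`. -/
def Fam (h : IsSurf a b) (K : Subgroup G) (j t : ℕ) : Prop :=
  ∃ s : Finset (MulAut G), t ≤ s.card ∧ (∀ f ∈ s, f ∈ MR h 0 j) ∧
    ∀ f ∈ s, ∀ f' ∈ s, f (ex a (j - 1)) * (f' (ex a (j - 1)))⁻¹ ∈ K → f = f'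

theorem Fam_one (h : IsSurf a b) (K : Subgroup G) (j : ℕ) : Fam h K j 1 := by
  refine ⟨{1}, by simp, ?_, ?_⟩
  · intro f hf
    rw [Finset.mem_singleton.1 hf]
    exact Subgroup.one_mem _
  · intro f hf f' hf' _
    rw [Finset.mem_singleton.1 hf, Finset.mem_singleton.1 hf']

theorem Fam_succ {h : IsSurf a b} (hK : KK h n K) {i t : ℕ} (hi : i + 1 < n) (hnm : n ≤ m)
    (hne : ¬ ∀ g ∈ Hd a b 0 (i + 1), g ∈ GG hK (i + 1) hi.le) (hF : Fam h K (i + 1) t) :
    Fam h K (i + 2) (2 ^ (i + 1) * t) := by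
  classical
  obtain ⟨s, s1, s2, s3⟩ := hF
  rw [Nat.add_sub_cancel] at s3
  obtain ⟨T, hT, T1, T2⟩ := exists_B h (i + 1) (by omega)
  choose P hP hP1 hP2 using exists_Pe h (i + 1) (by omega) T hT T1 T2
  obtain ⟨R, hR, R1⟩ := rot h i (by omega)
  obtain ⟨S, hS, S1⟩ := slideS h i (by omega)
  have hR' : R⁻¹ ∈ MR h 0 (i + 1) := Subgroup.inv_mem _ (MR_mono h (Nat.zero_le _) le_rfl hR)
  have R2 : R⁻¹ ((ex b i)⁻¹) = ex a i := inv_of_eq R1
  let Φ : Finset ℕ × MulAut G → MulAut G := fun x => P x.1 * (x.2 * R⁻¹) * S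
  have hup : ∀ {f : MulAut G}, f ∈ MR h 0 (i + 1) → f ∈ MR h 0 (i + 2) :=
    fun hf => MR_mono h le_rfl (by omega) hf
  -- the value
  have hval : ∀ e, ∀ f ∈ s, Φ (e, f) (ex a (i + 1)) =
      P e (f (ex a i)) * P e (ex a (i + 1)) := by
    intro e f hf
    have h1 := (MR_fix h (s2 f hf) (i + 1) (Or.inr le_rfl)).1
    have h2 : R⁻¹ (ex a (i + 1)) = ex a (i + 1) := (MR_fix h hR' (i + 1) (Or.inr le_rfl)).1
    change (P e * (f * R⁻¹) * S) (ex a (i + 1)) = _
    rw [MulAut.mul_apply, MulAut.mul_apply, MulAut.mul_apply, S1]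
    rw [map_mul, R2, h2, map_mul, h1, map_mul]
  have hmemR : ∀ e, ∀ f ∈ s, Φ (e, f) (ex a (i + 1)) ∈ Hd a b 0 n := by
    intro e f hf
    have h1 : Φ (e, f) ∈ MR h 0 (i + 2) := Subgroup.mul_mem _ (Subgroup.mul_mem _ (hP e)
      (hup (Subgroup.mul_mem _ (s2 f hf) hR'))) (MR_mono h (Nat.zero_le _) le_rfl hS)
    exact MR_map h le_rfl (by omega) h1 (a_Hd (Nat.zero_le _) (by omega))
  -- the derivative
  have hder : ∀ e, ∀ f ∈ s, (Φ (e, f) (ex a (i + 1)))⁻¹ * T (Φ (e, f) (ex a (i + 1))) =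
      (Wd b e 0 (i + 1))⁻¹ * ex b (i + 1) * Wd b e 0 (i + 1) := by
    intro e f hf
    rw [hval e f hf, map_mul, hP1 e _ (MR_map h le_rfl le_rfl (s2 f hf)
      (a_Hd (Nat.zero_le _) (Nat.lt_succ_self i))), ← hP2 e]
    group
  have hTK : ∀ k ∈ K, T k ∈ K := hK.inv T (MR_mono h (Nat.zero_le _) (by omega) hT)
  have key : ∀ e, e ⊆ Finset.range (i + 1) → ∀ f ∈ s, ∀ e', e' ⊆ Finset.range (i + 1) →
      ∀ f' ∈ s, Φ (e, f) (ex a (i + 1)) * (Φ (e', f') (ex a (i + 1)))⁻¹ ∈ K →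
      e = e' ∧ f = f' := by
    intro e he f hf e' he' f' hf' h1
    set u := Φ (e, f) (ex a (i + 1)) with hu
    set u' := Φ (e', f') (ex a (i + 1)) with hu'
    have h2 := hTK _ h1
    rw [map_mul, map_inv] at h2
    have h3 : (u⁻¹ * T u) * (u'⁻¹ * T u')⁻¹ ∈ K := by
      have h4 := hK.conj u⁻¹ (Subgroup.inv_mem _ (hmemR e f hf)) _
        (K.mul_mem h2 (K.inv_mem h1))
      have h5 := hK.conj (u⁻¹ * u) (by rw [inv_mul_cancel]; exact Subgroup.one_mem _) _ h4
      have h6 : u⁻¹ * (T u * (T u')⁻¹ * (u * u'⁻¹)⁻¹) * u⁻¹⁻¹ =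
          (u⁻¹ * T u) * (u'⁻¹ * T u')⁻¹ := by group
      rwa [h6] at h4
    rw [hder e f hf, hder e' f' hf'] at h3
    have hW : Wd b e 0 (i + 1) ∈ Hd a b 0 (i + 1) := by
      have := Wd_Hd (a := a) (b := b) e 0 (i + 1)
      rwa [Nat.zero_add] at this
    have hW' : Wd b e' 0 (i + 1) ∈ Hd a b 0 (i + 1) := by
      have := Wd_Hd (a := a) (b := b) e' 0 (i + 1)
      rwa [Nat.zero_add] at this
    have h7 : Wd b e 0 (i + 1) * (Wd b e' 0 (i + 1))⁻¹ ∈ GG hK (i + 1) hi.le := by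
      refine ⟨Subgroup.mul_mem _ hW (Subgroup.inv_mem _ hW'), ?_⟩
      have h8 := hK.conj (Wd b e 0 (i + 1)) (Hd_mono le_rfl hi.le hW) _ h3
      have h9 : Wd b e 0 (i + 1) * ((Wd b e 0 (i + 1))⁻¹ * ex b (i + 1) * Wd b e 0 (i + 1) *
          ((Wd b e' 0 (i + 1))⁻¹ * ex b (i + 1) * Wd b e' 0 (i + 1))⁻¹) *
          (Wd b e 0 (i + 1))⁻¹ = ex b (i + 1) * (Wd b e 0 (i + 1) * (Wd b e' 0 (i + 1))⁻¹) *
          (ex b (i + 1))⁻¹ * (Wd b e 0 (i + 1) * (Wd b e' 0 (i + 1))⁻¹)⁻¹ := by group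
      rwa [h9] at h8
    have hee : e = e' := by
      by_contra hcon
      apply hne
      refine lemmaP hK hi.le (by omega) e e' ?_ h7
      by_contra h8
      push Not at h8
      apply hcon
      ext l
      by_cases hl : l < i + 1
      · exact h8 l hl
      · constructor
        · intro h9; exact absurd (Finset.mem_range.1 (he h9)) hl
        · intro h9; exact absurd (Finset.mem_range.1 (he' h9)) hl
    subst hee
    refine ⟨rfl, ?_⟩
    have h8 : (P e)⁻¹ (u * u'⁻¹) ∈ K :=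
      hK.inv _ (Subgroup.inv_mem _ (MR_mono h le_rfl (by omega) (hP e))) _ h1
    rw [hu, hu', hval e f hf, hval e f' hf', ← map_mul, ← map_mul, ← map_inv, ← map_mul,
      MulAut.inv_apply_self] at h8
    have h9 : f (ex a i) * ex a (i + 1) * (f' (ex a i) * ex a (i + 1))⁻¹ =
        f (ex a i) * (f' (ex a i))⁻¹ := by group
    rw [h9] at h8
    exact s3 f hf f' hf' h8
  have hinj : Set.InjOn Φ ((Finset.range (i + 1)).powerset ×ˢ s : Finset (Finset ℕ × MulAut G)) := by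
    rintro ⟨e, f⟩ h1 ⟨e', f'⟩ h2 h3
    rw [Finset.mem_coe, Finset.mem_product, Finset.mem_powerset] at h1 h2
    have h4 := key e h1.1 f h1.2 e' h2.1 f' h2.2 (by
      rw [h3, mul_inv_cancel]
      exact K.one_mem)
    rw [h4.1, h4.2]
  refine ⟨((Finset.range (i + 1)).powerset ×ˢ s).image Φ, ?_, ?_, ?_⟩
  · rw [Finset.card_image_of_injOn hinj, Finset.card_product, Finset.card_powerset,
      Finset.card_range]
    exact Nat.mul_le_mul_left _ s1
  · intro f hf
    obtain ⟨⟨e, f⟩, h1, rfl⟩ := Finset.mem_image.1 hf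
    rw [Finset.mem_product] at h1
    exact Subgroup.mul_mem _ (Subgroup.mul_mem _ (hP e)
      (hup (Subgroup.mul_mem _ (s2 f h1.2) hR'))) (MR_mono h (Nat.zero_le _) le_rfl hS)
  · intro g hg g' hg' h5
    obtain ⟨⟨e, f⟩, h1, rfl⟩ := Finset.mem_image.1 hg
    obtain ⟨⟨e', f'⟩, h2, rfl⟩ := Finset.mem_image.1 hg'
    rw [Finset.mem_product, Finset.mem_powerset] at h1 h2
    have h6 := key e h1.1 f h1.2 e' h2.1 f' h2.2 h5
    rw [h6.1, h6.2]

theorem Fam_all {h : IsSurf a b} (hK : KK h n K) (hnm : n ≤ m)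
    (hne : ∀ i (hi : i + 1 < n), ¬ ∀ g ∈ Hd a b 0 (i + 1), g ∈ GG hK (i + 1) hi.le) :
    ∀ i, i < n → Fam h K (i + 1) (2 ^ ((i + 1).choose 2)) := by
  intro i
  induction i with
  | zero => intro _; exact Fam_one h K 1
  | succ i ih =>
    intro hi
    have h1 := Fam_succ hK hi hnm (hne i hi) (ih (by omega))
    rw [← pow_add] at h1
    have h2 : i + 1 + (i + 1).choose 2 = (i + 1 + 1).choose 2 := by
      rw [Nat.choose_succ_succ' (i + 1) 1, Nat.choose_one_right]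
    rwa [h2] at h1

end

end Pool.MP_59b15d_al.H95G
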