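import Mathlib
import Pool.Agent.H.MP_59b15d_al.h76r.Sb
import Pool.Agent.H.MP_59b15d_al.h95g.Kr

set_option autoImplicit false

/-!
# The subgroup of the pushes
-/

namespace Pool.MP_59b15d_al.H95G

open Pool.MP_59b15d_al.H24T Pool.MP_59b15d_al.H76R Pool.MP_59b15d_al.H73E
open Pool.MP_59b15d_al.H60G
open FreeGroup (of)

section

variable {n : ℕ} {G : Type*} [Group G] {a b : Fin (n + 1) → G}

theorem MR_MMs {m : ℕ} {a b : Fin m → G} (h : IsSurf a b) (lo hi : ℕ) :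
    MR h lo hi ≤ MMs h := by
  apply MR_le h
  · intro i _ _
    exact Subgroup.subset_closure (Or.inr (Or.inl ⟨_, rfl⟩))
  · intro i _ _
    exact Subgroup.subset_closure (Or.inr (Or.inr (Or.inl ⟨_, rfl⟩)))
  · intro i j hij _ _
    exact Subgroup.subset_closure (Or.inr (Or.inr (Or.inr ⟨_, _, _, rfl⟩)))

theorem exists_pair (h : IsSurf a b) {f : MulAut G} (hf : f ∈ MR h 0 n) :
    ∃ f', Pair h f' f := by
  let S : Subgroup (MulAut G) :=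
    { carrier := {f | ∃ f', Pair h f' f}
      one_mem' := ⟨1, Pair.one h⟩
      mul_mem' := by
        rintro f g ⟨f', h1⟩ ⟨g', h2⟩
        exact ⟨_, h1.mul h2⟩
      inv_mem' := by
        rintro f ⟨f', h1⟩
        exact ⟨_, h1.inv⟩ }
  have hcs : ∀ i : Fin (n + 1), (i : ℕ) < n → ∃ i' : Fin n, i = i'.castSucc :=
    fun i hi => ⟨⟨i, hi⟩, rfl⟩
  have hle : MR h 0 n ≤ S := by
    apply MR_le h
    · intro i _ hi
      obtain ⟨i', rfl⟩ := hcs i hi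
      exact ⟨_, pair_TA h i'⟩
    · intro i _ hi
      obtain ⟨i', rfl⟩ := hcs i hi
      exact ⟨_, pair_TB h i'⟩
    · intro i j hij _ hj
      obtain ⟨j', rfl⟩ := hcs j hj
      obtain ⟨i', rfl⟩ := hcs i (by omega)
      exact ⟨_, pair_TC h (i := i') (j := j') hij⟩
  exact hle hf

/-- The elements whose push is a power of the twist modulo `N`. -/
def Kr (h : IsSurf a b) (N : Subgroup (MulAut G)) : Subgroup (Fr n) where
  carrier := {y | ∃ k : ℤ, XX h y * TT h ^ k ∈ N}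
  one_mem' := ⟨0, by rw [map_one, zpow_zero, mul_one]; exact N.one_mem⟩
  mul_mem' := by
    rintro x y ⟨k, hk⟩ ⟨l, hl⟩
    refine ⟨k + l, ?_⟩
    have h1 := N.mul_mem hk hl
    have h2 := ((TT_XX h y).zpow_left k).eq
    have h3 : XX h x * TT h ^ k * (XX h y * TT h ^ l) = XX h (x * y) * TT h ^ (k + l) := by
      rw [map_mul, zpow_add]
      calc XX h x * TT h ^ k * (XX h y * TT h ^ l) =
          XX h x * (TT h ^ k * XX h y) * TT h ^ l := by group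
        _ = _ := by rw [h2]; group
    rwa [h3] at h1
  inv_mem' := by
    rintro x ⟨k, hk⟩
    refine ⟨-k, ?_⟩
    have h1 := N.inv_mem hk
    have h2 := ((TT_XX h x).zpow_left k).inv_inv.eq
    rw [mul_inv_rev, h2] at h1
    rw [map_inv, zpow_neg]
    exact h1

theorem mem_Kr {h : IsSurf a b} {N : Subgroup (MulAut G)} {y : Fr n} :
    y ∈ Kr h N ↔ ∃ k : ℤ, XX h y * TT h ^ k ∈ N := Iff.rfl

theorem Hd_range : Hd a b 0 n ≤ (jR a b).range := by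
  rw [Hd, Subgroup.closure_le]
  rintro g ⟨k, -, hk, rfl | rfl⟩
  · exact ⟨of (Sum.inl ⟨k, hk⟩), by rw [jR_a, ex_lt a (by omega)]; rfl⟩
  · exact ⟨of (Sum.inr ⟨k, hk⟩), by rw [jR_b, ex_lt b (by omega)]; rfl⟩

variable {h : IsSurf a b} {N : Subgroup (MulAut G)}

theorem Kr_conj (hN : ∀ f ∈ MMs h, ∀ x ∈ N, f * x * f⁻¹ ∈ N) (r : Fr n) {y : Fr n}
    (hy : y ∈ Kr h N) : r * y * r⁻¹ ∈ Kr h N := by
  obtain ⟨k, hk⟩ := hy
  refine ⟨k, ?_⟩
  have h1 := hN _ (XX_mem h r) _ hk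
  have h2 := ((TT_XX h r⁻¹).zpow_left k).eq
  have h3 : XX h r * (XX h y * TT h ^ k) * (XX h r)⁻¹ = XX h (r * y * r⁻¹) * TT h ^ k := by
    rw [map_mul, map_mul]
    rw [map_inv] at h2 ⊢
    calc XX h r * (XX h y * TT h ^ k) * (XX h r)⁻¹ =
        XX h r * XX h y * (TT h ^ k * (XX h r)⁻¹) := by group
      _ = _ := by rw [h2]; group
  rwa [h3] at h1

theorem Kr_pair (hN : ∀ f ∈ MMs h, ∀ x ∈ N, f * x * f⁻¹ ∈ N) {f' : MulAut (Fr n)} {f : MulAut G}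
    (hp : Pair h f' f) (hf : f ∈ MMs h) {y : Fr n} (hy : y ∈ Kr h N) : f' y ∈ Kr h N := by
  obtain ⟨k, hk⟩ := hy
  obtain ⟨l, hl⟩ := hp.fX y
  refine ⟨l + k, ?_⟩
  have h1 := hN _ hf _ hk
  have h2 := ((comm_TT h hp.fj hp.fa hp.fb).zpow_right k).eq
  have h3 : f * (XX h y * TT h ^ k) * f⁻¹ = XX h (f' y) * TT h ^ (l + k) := by
    rw [zpow_add]
    calc f * (XX h y * TT h ^ k) * f⁻¹ = f * XX h y * f⁻¹ * (f * TT h ^ k) * f⁻¹ := by group
      _ = _ := by rw [h2, hl]; group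
  rwa [h3] at h1

theorem KK_of (hN : ∀ f ∈ MMs h, ∀ x ∈ N, f * x * f⁻¹ ∈ N) :
    KK h n ((Kr h N).map (jR a b)) := by
  constructor
  · intro r hr k hk
    obtain ⟨ρ, rfl⟩ := Hd_range hr
    obtain ⟨κ, hκ, rfl⟩ := hk
    exact ⟨_, Kr_conj hN ρ hκ, by rw [map_mul, map_mul, map_inv]⟩
  · intro f hf k hk
    obtain ⟨κ, hκ, rfl⟩ := hk
    obtain ⟨f', hp⟩ := exists_pair h hf
    exact ⟨_, Kr_pair hN hp (MR_MMs h _ _ hf) hκ, (hp.fj κ).symm⟩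

/-- Elements of `N` move the elements of the first handles by elements of `K`. -/
theorem N_move (hN : ∀ f ∈ MMs h, ∀ x ∈ N, f * x * f⁻¹ ∈ N) {ν : MulAut G} (hν : ν ∈ N)
    (hν2 : ν ∈ MR h 0 n) {g : G} (hg : g ∈ Hd a b 0 n) :
    g⁻¹ * ν g ∈ (Kr h N).map (jR a b) := by
  obtain ⟨y, rfl⟩ := Hd_range hg
  obtain ⟨f', hp⟩ := exists_pair h hν2
  refine ⟨y⁻¹ * f' y, ?_, by rw [map_mul, map_inv, hp.fj]⟩
  obtain ⟨l, hl⟩ := hp.fX y
  refine ⟨l, ?_⟩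
  have h1 := hN _ (XX_mem h y⁻¹) _ hν
  have h2 := N.mul_mem h1 (N.inv_mem hν)
  have h3 : XX h y⁻¹ * ν * (XX h y⁻¹)⁻¹ * ν⁻¹ = XX h (y⁻¹ * f' y) * TT h ^ l := by
    rw [map_mul]
    rw [map_inv] at *
    rw [inv_inv]
    calc (XX h y)⁻¹ * ν * XX h y * ν⁻¹ = (XX h y)⁻¹ * (ν * XX h y * ν⁻¹) := by group
      _ = _ := by rw [hl]; group
  rwa [h3] at h2

end

end Pool.MP_59b15d_al.H95G
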