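import Mathlib
import Pool.Agent.H.MP_59b15d_al.h95g.KN
import Pool.Agent.H.MP_59b15d_al.h95g.Rec

set_option autoImplicit false

/-!
# The chain of subgroups, and the count
-/

namespace Pool.MP_59b15d_al.H95G

open Pool.MP_59b15d_al.H24T Pool.MP_59b15d_al.H76R Pool.MP_59b15d_al.H73E
open Pool.MP_59b15d_al.H60G
open FreeGroup (of)

section

variable {n : ℕ} {G : Type*} [Group G] {a b : Fin (n + 1) → G}

/-- Many automorphisms of the first `j` handles, different modulo `N`. -/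
def Big (h : IsSurf a b) (N : Subgroup (MulAut G)) (j c : ℕ) : Prop :=
  ∃ s : Finset (MulAut G), c ≤ s.card ∧ (∀ f ∈ s, f ∈ MR h 0 j) ∧
    ∀ f ∈ s, ∀ f' ∈ s, f⁻¹ * f' ∈ N → f = f'

variable {h : IsSurf a b} {N : Subgroup (MulAut G)}

theorem Big_one (j : ℕ) : Big h N j 1 := by
  refine ⟨{1}, by simp, ?_, ?_⟩
  · intro f hf
    rw [Finset.mem_singleton.1 hf]
    exact Subgroup.one_mem _
  · intro f hf f' hf' _
    rw [Finset.mem_singleton.1 hf, Finset.mem_singleton.1 hf']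

theorem Big_succ (hN : ∀ f ∈ MMs h, ∀ x ∈ N, f * x * f⁻¹ ∈ N) {j c t : ℕ} (hj : j + 1 ≤ n)
    (hB : Big h N j c) (hF : Fam h ((Kr h N).map (jR a b)) (j + 1) t) :
    Big h N (j + 1) (t * c) := by
  classical
  obtain ⟨s, s1, s2, s3⟩ := hB
  obtain ⟨u, u1, u2, u3⟩ := hF
  rw [Nat.add_sub_cancel] at u3
  have hK := KK_of hN
  have key : ∀ f ∈ u, ∀ g ∈ s, ∀ f' ∈ u, ∀ g' ∈ s, (f * g)⁻¹ * (f' * g') ∈ N →
      f = f' ∧ g = g' := by
    intro f hf g hg f' hf' g' hg' hν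
    have hin : ∀ {w : MulAut G}, w ∈ MR h 0 (j + 1) → w ∈ MR h 0 n :=
      fun hw => MR_mono h le_rfl hj hw
    have hup : ∀ {w : MulAut G}, w ∈ MR h 0 j → w ∈ MR h 0 n :=
      fun hw => MR_mono h le_rfl (by omega) hw
    have hfix : ∀ {w : MulAut G}, w ∈ MR h 0 j → w (ex a j) = ex a j :=
      fun hw => (MR_fix h hw j (Or.inr le_rfl)).1
    have hν2 : (f * g)⁻¹ * (f' * g') ∈ MR h 0 n :=
      Subgroup.mul_mem _ (Subgroup.inv_mem _ (Subgroup.mul_mem _ (hin (u2 f hf)) (hup (s2 g hg))))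
        (Subgroup.mul_mem _ (hin (u2 f' hf')) (hup (s2 g' hg')))
    have h1 := N_move hN hν hν2 (a_Hd (Nat.zero_le j) (by omega))
    have h2 := hK.inv (f * g) (Subgroup.mul_mem _ (hin (u2 f hf)) (hup (s2 g hg))) _ h1
    have h3 : (f * g) ((ex a j)⁻¹ * ((f * g)⁻¹ * (f' * g')) (ex a j)) =
        (f (ex a j))⁻¹ * f' (ex a j) := by
      have e1 : (f * g) (((f * g)⁻¹ * (f' * g')) (ex a j)) = (f' * g') (ex a j) := by
        rw [MulAut.mul_apply _ (f * g)⁻¹, MulAut.apply_inv_self]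
      rw [map_mul, map_inv, e1, MulAut.mul_apply, MulAut.mul_apply, hfix (s2 g hg),
        hfix (s2 g' hg')]
    rw [h3] at h2
    have h4 := hK.conj (f (ex a j)) (MR_map h le_rfl le_rfl (hin (u2 f hf))
      (a_Hd (Nat.zero_le j) (by omega))) _ (Subgroup.inv_mem _ h2)
    have h5 : f (ex a j) * ((f (ex a j))⁻¹ * f' (ex a j))⁻¹ * (f (ex a j))⁻¹ =
        f (ex a j) * (f' (ex a j))⁻¹ := by group
    rw [h5] at h4
    have h6 := u3 f hf f' hf' h4
    subst h6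
    refine ⟨rfl, s3 g hg g' hg' ?_⟩
    have h7 : (f * g)⁻¹ * (f * g') = g⁻¹ * g' := by group
    rwa [h7] at hν
  have hinj : Set.InjOn (fun x : MulAut G × MulAut G => x.1 * x.2)
      (u ×ˢ s : Finset (MulAut G × MulAut G)) := by
    rintro ⟨f, g⟩ h1 ⟨f', g'⟩ h2 h3
    rw [Finset.mem_coe, Finset.mem_product] at h1 h2
    have h4 := key f h1.1 g h1.2 f' h2.1 g' h2.2 (by
      change f * g = f' * g' at h3
      rw [h3, inv_mul_cancel]
      exact N.one_mem)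
    rw [h4.1, h4.2]
  refine ⟨(u ×ˢ s).image (fun x => x.1 * x.2), ?_, ?_, ?_⟩
  · rw [Finset.card_image_of_injOn hinj, Finset.card_product]
    exact Nat.mul_le_mul u1 s1
  · intro f hf
    obtain ⟨⟨e, f⟩, h1, rfl⟩ := Finset.mem_image.1 hf
    rw [Finset.mem_product] at h1
    exact Subgroup.mul_mem _ (u2 e h1.1) (MR_mono h le_rfl (by omega) (s2 f h1.2))
  · intro g hg g' hg' h5
    obtain ⟨⟨e, f⟩, h1, rfl⟩ := Finset.mem_image.1 hg
    obtain ⟨⟨e', f'⟩, h2, rfl⟩ := Finset.mem_image.1 hg'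
    rw [Finset.mem_product] at h1 h2
    have h6 := key e h1.1 f h1.2 e' h2.1 f' h2.2 h5
    rw [h6.1, h6.2]

theorem Big_all (hN : ∀ f ∈ MMs h, ∀ x ∈ N, f * x * f⁻¹ ∈ N)
    (hne : ∀ i (hi : i + 1 < n), ¬ ∀ g ∈ Hd a b 0 (i + 1), g ∈ GG (KK_of hN) (i + 1) hi.le) :
    ∀ j, j ≤ n → Big h N j (2 ^ (j + 1).choose 3) := by
  intro j
  induction j with
  | zero => intro _; exact Big_one 0
  | succ j ih =>
    intro hj
    have h1 := Big_succ hN hj (ih (by omega)) (Fam_all (KK_of hN) (Nat.le_succ n) hne j hj)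
    rw [← pow_add] at h1
    have h2 : (j + 1).choose 2 + (j + 1).choose 3 = (j + 1 + 1).choose 3 := by
      rw [Nat.choose_succ_succ' (j + 1) 2]
    rwa [h2] at h1

theorem le_relIndex {j c : ℕ} (hB : Big h N j c) (hf : N.relIndex (MR h 0 j) ≠ 0) :
    c ≤ N.relIndex (MR h 0 j) := by
  classical
  obtain ⟨s, s1, s2, s3⟩ := hB
  refine s1.trans ?_
  have hfin : (N.subgroupOf (MR h 0 j)).index ≠ 0 := hf
  have hfi : (N.subgroupOf (MR h 0 j)).FiniteIndex := ⟨hfin⟩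
  have hF : Finite (MR h 0 j ⧸ N.subgroupOf (MR h 0 j)) :=
    Subgroup.finite_quotient_of_finiteIndex
  let φ : s → MR h 0 j ⧸ N.subgroupOf (MR h 0 j) :=
    fun f => QuotientGroup.mk ⟨f.1, s2 f.1 f.2⟩
  have hφ : Function.Injective φ := by
    intro f f' hff
    have h1 := QuotientGroup.eq.1 hff
    rw [Subgroup.mem_subgroupOf] at h1
    exact Subtype.ext (s3 _ f.2 _ f'.2 h1)
  have h2 := Nat.card_le_card_of_injective φ hφ
  rw [Nat.card_eq_fintype_card, Fintype.card_coe] at h2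
  exact h2

/-- The growth: either some `b_{i+1}` commutes with all elements of the previous handles modulo
`K`, or the index is large. -/
theorem growth_alt (hN : ∀ f ∈ MMs h, ∀ x ∈ N, f * x * f⁻¹ ∈ N)
    (hf : N.relIndex (MR h 0 n) ≠ 0) (hlt : N.relIndex (MR h 0 n) < 2 ^ (n + 1).choose 3) :
    ∃ i, ∃ hi : i + 1 < n, ∀ g ∈ Hd a b 0 (i + 1), g ∈ GG (KK_of hN) (i + 1) hi.le := by
  by_contra hcon
  push Not at hcon
  have h1 := Big_all hN (fun i hi h2 => by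
    obtain ⟨g, g1, g2⟩ := hcon i hi
    exact g2 (h2 g g1)) n le_rfl
  have h2 := le_relIndex h1 hf
  omega

end

end Pool.MP_59b15d_al.H95G
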