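import Mathlib
import Pool.Agent.H.MP_59b15d_al.h95g.Kr

set_option autoImplicit false

/-!
# Handles commuting modulo an invariant subgroup
-/

namespace Pool.MP_59b15d_al.H95G

open Pool.MP_59b15d_al.H24T Pool.MP_59b15d_al.H76R Pool.MP_59b15d_al.H73E
open Pool.MP_59b15d_al.H60G

section

variable {m : ℕ} {G : Type*} [Group G] {a b : Fin m → G} {n : ℕ} {K : Subgroup G}

/-- The elements commuting with `x` modulo `K`. -/
def Cz {h : IsSurf a b} (hK : KK h n K) (x : G) : Subgroup G where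
  carrier := {y | y ∈ Hd a b 0 n ∧ x * y * x⁻¹ * y⁻¹ ∈ K}
  one_mem' := by
    refine ⟨Subgroup.one_mem _, ?_⟩
    have : x * 1 * x⁻¹ * 1⁻¹ = 1 := by group
    rw [this]
    exact K.one_mem
  mul_mem' := by
    rintro y z ⟨h1, h2⟩ ⟨h3, h4⟩
    refine ⟨Subgroup.mul_mem _ h1 h3, ?_⟩
    have h5 := K.mul_mem h2 (hK.conj y h1 _ h4)
    have h6 : x * y * x⁻¹ * y⁻¹ * (y * (x * z * x⁻¹ * z⁻¹) * y⁻¹) =
        x * (y * z) * x⁻¹ * (y * z)⁻¹ := by group
    rwa [h6] at h5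
  inv_mem' := by
    rintro y ⟨h1, h2⟩
    refine ⟨Subgroup.inv_mem _ h1, ?_⟩
    have h5 := hK.conj y⁻¹ (Subgroup.inv_mem _ h1) _ (K.inv_mem h2)
    have h6 : y⁻¹ * (x * y * x⁻¹ * y⁻¹)⁻¹ * y⁻¹⁻¹ = x * y⁻¹ * x⁻¹ * y⁻¹⁻¹ := by group
    rwa [h6] at h5

theorem Cz_symm {h : IsSurf a b} (hK : KK h n K) {x y : G} (hx : x ∈ Hd a b 0 n)
    (hy : y ∈ Cz hK x) : x ∈ Cz hK y := by
  refine ⟨hx, ?_⟩
  have h1 := K.inv_mem hy.2
  have h2 : (x * y * x⁻¹ * y⁻¹)⁻¹ = y * x * y⁻¹ * x⁻¹ := by group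
  rwa [h2] at h1

theorem Cz_map {h : IsSurf a b} (hK : KK h n K) {x y : G} {f : MulAut G} (hf : f ∈ MR h 0 n)
    (hy : y ∈ Cz hK x) : f y ∈ Cz hK (f x) := by
  refine ⟨MR_map h le_rfl le_rfl hf hy.1, ?_⟩
  have h1 := hK.inv f hf _ hy.2
  simpa only [map_mul, map_inv] using h1

/-- The handles `i` and `j` commute modulo `K`. -/
def CC {h : IsSurf a b} (hK : KK h n K) (i j : ℕ) : Prop :=
  ∀ x ∈ Hd a b i (i + 1), ∀ y ∈ Hd a b j (j + 1), y ∈ Cz hK x

theorem Hd_one_map {f : MulAut G} {i i' : ℕ} (h1 : f (ex a i') = ex a i)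
    (h2 : f (ex b i') = ex b i) {x : G} (hx : x ∈ Hd a b i' (i' + 1)) :
    f x ∈ Hd a b i (i + 1) := by
  have h3 : Hd a b i' (i' + 1) ≤ (Hd a b i (i + 1)).comap f.toMonoidHom := by
    rw [Hd, Subgroup.closure_le]
    rintro g ⟨k, h3, h4, hg⟩
    have hk : k = i' := by omega
    subst hk
    change f g ∈ Hd a b i (i + 1)
    rcases hg with rfl | rfl
    · rw [h1]
      exact a_Hd le_rfl (Nat.lt_succ_self i)
    · rw [h2]
      exact b_Hd le_rfl (Nat.lt_succ_self i)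
  exact h3 hx

theorem CC_transfer {h : IsSurf a b} {hK : KK h n K} {i j i' j' : ℕ} {f : MulAut G}
    (hf : f ∈ MR h 0 n) (h1 : f (ex a i') = ex a i ∧ f (ex b i') = ex b i)
    (h2 : f (ex a j') = ex a j ∧ f (ex b j') = ex b j) (hc : CC hK i j) : CC hK i' j' := by
  intro x hx y hy
  have h3 := Cz_map hK (Subgroup.inv_mem _ hf)
    (hc _ (Hd_one_map h1.1 h1.2 hx) _ (Hd_one_map h2.1 h2.2 hy))
  rwa [MulAut.inv_apply_self, MulAut.inv_apply_self] at h3

/-- If `b_j` commutes with `x` in the previous handles then so does the handle `j`. -/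
theorem Hd_le_Cz {h : IsSurf a b} (hK : KK h n K) {j : ℕ} (hj : j < n) (hnm : n ≤ m) {x : G}
    (hx : x ∈ Hd a b 0 j) (hb : ex b j ∈ Cz hK x) : Hd a b j (j + 1) ≤ Cz hK x := by
  obtain ⟨A, hA, A1, A2⟩ := exists_A h j (by omega)
  have h1 : A x = x := MR_fix_Hd h (Or.inl le_rfl) hA hx
  have h2 := Cz_map hK (MR_mono h (Nat.zero_le _) (by omega) hA) hb
  rw [h1, A2] at h2
  have h3 := Subgroup.mul_mem _ (Subgroup.inv_mem _ hb) h2
  rw [inv_mul_cancel_left] at h3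
  rw [Hd, Subgroup.closure_le]
  rintro g ⟨k, h4, h5, hg⟩
  have hk : k = j := by omega
  subst hk
  rcases hg with rfl | rfl
  · exact h3
  · exact hb

theorem CC_of_GG {h : IsSurf a b} (hK : KK h n K) {i : ℕ} (hi : i + 1 < n) (hnm : n ≤ m)
    (hg : ∀ g ∈ Hd a b 0 (i + 1), g ∈ GG hK (i + 1) hi.le) : CC hK 0 (i + 1) := by
  intro x hx
  have hx' : x ∈ Hd a b 0 (i + 1) := Hd_mono le_rfl (by omega) hx
  apply Hd_le_Cz hK hi hnm hx'
  refine ⟨b_Hd (Nat.zero_le _) hi, ?_⟩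
  have h1 := K.inv_mem (hg x hx').2
  have h2 : (ex b (i + 1) * x * (ex b (i + 1))⁻¹ * x⁻¹)⁻¹ =
      x * ex b (i + 1) * x⁻¹ * (ex b (i + 1))⁻¹ := by group
  rwa [h2] at h1

/-- If two handles commute modulo `K` then all do. -/
theorem CC_all {h : IsSurf a b} {hK : KK h n K} (hnm : n ≤ m) {l : ℕ} (hl : l + 1 < n)
    (hc : CC hK 0 (l + 1)) : ∀ i j, i < j → j < n → CC hK i j := by
  have hup : ∀ j, 1 ≤ j → j + 1 < n → CC hK 0 j → CC hK 0 (j + 1) := by
    intro j h1 h2 h3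
    obtain ⟨σ, s1, s2, -⟩ := exists_swap' h j (by omega)
    exact CC_transfer (MR_mono h (Nat.zero_le _) (by omega) s1)
      (MR_fix h s1 0 (Or.inl (by omega))) s2 h3
  have hdn : ∀ j, 1 ≤ j → j + 1 < n → CC hK 0 (j + 1) → CC hK 0 j := by
    intro j h1 h2 h3
    obtain ⟨σ, s1, s2, -⟩ := exists_swap' h j (by omega)
    refine CC_transfer (Subgroup.inv_mem _ (MR_mono h (Nat.zero_le _) (by omega) s1))
      ⟨?_, ?_⟩ ⟨?_, ?_⟩ h3
    · exact inv_of_eq (MR_fix h s1 0 (Or.inl (by omega))).1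
    · exact inv_of_eq (MR_fix h s1 0 (Or.inl (by omega))).2
    · exact inv_of_eq s2.1
    · exact inv_of_eq s2.2
  have h0 : ∀ k, k ≤ l → CC hK 0 (l + 1 - k) := by
    intro k
    induction k with
    | zero => intro _; exact hc
    | succ k ih =>
      intro hk
      have h1 := ih (by omega)
      have h2 : l + 1 - k = l + 1 - (k + 1) + 1 := by omega
      rw [h2] at h1
      exact hdn _ (by omega) (by omega) h1
  have h1 : ∀ j, 1 ≤ j → j < n → CC hK 0 j := by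
    intro j
    induction j with
    | zero => intro h2; omega
    | succ j ih =>
      intro h2 h3
      by_cases hj : j = 0
      · subst hj
        have := h0 l le_rfl
        rwa [Nat.add_sub_cancel_left] at this
      · exact hup j (by omega) h3 (ih (by omega) (by omega))
  intro i
  induction i with
  | zero => intro j h2 h3; exact h1 j h2 h3
  | succ i ih =>
    intro j h2 h3
    obtain ⟨σ, s1, s2, -⟩ := exists_swap' h i (by omega)
    exact CC_transfer (MR_mono h (Nat.zero_le _) (by omega) s1) s2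
      (MR_fix h s1 j (Or.inr (by omega))) (ih j (by omega) h3)

end

end Pool.MP_59b15d_al.H95G
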