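import Mathlib
import Pool.Agent.H.MP_59b15d_al.h95g.Ch
import Pool.Agent.H.MP_59b15d_al.h95g.Alt
import Pool.Agent.H.MP_59b15d_al.h73e.Htb

set_option autoImplicit false

/-!
# The growth theorem

If a subgroup of the mapping class group of a surface of genus `n + 1`, normalised by the mapping
class group, has index smaller than `2 ^ binom(n + 1, 3)`, then the pushes of the last handle around
elements of different handles commute modulo this subgroup.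
-/

namespace Pool.MP_59b15d_al.H95G

open Pool.MP_59b15d_al.H24T Pool.MP_59b15d_al.H76R Pool.MP_59b15d_al.H73E
open Pool.MP_59b15d_al.H60G
open FreeGroup (of)

/-- The subgroup of one handle in the free group. -/
def Hf (n : ℕ) (i : Fin n) : Subgroup (Fr n) :=
  Subgroup.closure {of (Sum.inl i), of (Sum.inr i)}

theorem Hf_a {n : ℕ} (i : Fin n) : of (Sum.inl i) ∈ Hf n i :=
  Subgroup.subset_closure (Or.inl rfl)

theorem Hf_b {n : ℕ} (i : Fin n) : of (Sum.inr i) ∈ Hf n i :=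
  Subgroup.subset_closure (Or.inr rfl)

section

variable {n : ℕ} {G : Type*} [Group G] {a b : Fin (n + 1) → G}

theorem jR_ex_a (i : Fin n) : jR a b (of (Sum.inl i)) = ex a (i : ℕ) := by
  rw [jR_a, ex_lt a (Nat.lt_succ_of_lt i.2)]
  rfl

theorem jR_ex_b (i : Fin n) : jR a b (of (Sum.inr i)) = ex b (i : ℕ) := by
  rw [jR_b, ex_lt b (Nat.lt_succ_of_lt i.2)]
  rfl

theorem jR_Hf {i : Fin n} {x : Fr n} (hx : x ∈ Hf n i) : jR a b x ∈ Hd a b i (i + 1) := by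
  have h1 : Hf n i ≤ (Hd a b i (i + 1)).comap (jR a b) := by
    rw [Hf, Subgroup.closure_le]
    rintro g (rfl | rfl)
    · change jR a b (of (Sum.inl i)) ∈ Hd a b i (i + 1)
      rw [jR_ex_a]
      exact a_Hd le_rfl (Nat.lt_succ_self _)
    · change jR a b (of (Sum.inr i)) ∈ Hd a b i (i + 1)
      rw [jR_ex_b]
      exact b_Hd le_rfl (Nat.lt_succ_self _)
  exact h1 hx

theorem jR_mem (h : IsSurf a b) {L : Subgroup (Fr n)} {y : Fr n} (hy : jR a b y ∈ L.map (jR a b)) :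
    y ∈ L := by
  obtain ⟨z, hz, h1⟩ := hy
  rwa [← jR_injective h h1]

/-- Commuting handles in the free group. -/
theorem comm_of_CC {h : IsSurf a b} {L : Subgroup (Fr n)} {hK : KK h n (L.map (jR a b))}
    (hc : ∀ i j, i < j → j < n → CC hK i j) {i j : Fin n} (hij : i ≠ j) {x y : Fr n}
    (hx : x ∈ Hf n i) (hy : y ∈ Hf n j) : x * y * x⁻¹ * y⁻¹ ∈ L := by
  rcases lt_or_gt_of_ne hij with h1 | h1
  · have h2 := (hc i j h1 j.2 _ (jR_Hf hx) _ (jR_Hf hy)).2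
    apply jR_mem h
    simpa only [map_mul, map_inv] using h2
  · have h2 := (hc j i h1 i.2 _ (jR_Hf hy) _ (jR_Hf hx)).2
    have h3 : y * x * y⁻¹ * x⁻¹ ∈ L := by
      apply jR_mem h
      simpa only [map_mul, map_inv] using h2
    have h4 : (y * x * y⁻¹ * x⁻¹)⁻¹ = x * y * x⁻¹ * y⁻¹ := by group
    rw [← h4]
    exact L.inv_mem h3

/-- Growth, modulo the twist. -/
theorem growth_zero (h : IsSurf a b) (N : Subgroup (MulAut G))
    (hN : ∀ f ∈ MMs h, ∀ x ∈ N, f * x * f⁻¹ ∈ N) (hf : N.relIndex (MR h 0 n) ≠ 0)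
    (hlt : N.relIndex (MR h 0 n) < 2 ^ (n + 1).choose 3) {i j : Fin n} (hij : i ≠ j)
    {x y : Fr n} (hx : x ∈ Hf n i) (hy : y ∈ Hf n j) :
    ∃ k : ℤ, XX h (x * y * x⁻¹ * y⁻¹) * TT h ^ k ∈ N := by
  obtain ⟨l, hl, h1⟩ := growth_alt hN hf hlt
  have h2 := CC_all (Nat.le_succ n) hl (CC_of_GG (KK_of hN) hl (Nat.le_succ n) h1)
  exact comm_of_CC h2 hij hx hy

/-! ### The exact version -/

theorem pair_XX {h : IsSurf a b} {f' : MulAut (Fr n)} {f : MulAut G} (hp : Pair h f' f)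
    {y : Fr n} (hy : y ∈ commutator (Fr n)) : f * XX h y * f⁻¹ = XX h (f' y) := by
  let φ : Fr n →* MulAut G := (MulAut.conj f).toMonoidHom.comp (XX h)
  let ψ : Fr n →* MulAut G := (XX h).comp f'.toMonoidHom
  have h1 : commutator (Fr n) ≤ φ.eqLocus ψ := by
    rw [commutator_def, Subgroup.commutator_le]
    intro x _ z _
    change f * XX h (x * z * x⁻¹ * z⁻¹) * f⁻¹ = XX h (f' (x * z * x⁻¹ * z⁻¹))
    obtain ⟨k, hk⟩ := hp.fX x
    obtain ⟨l, hl⟩ := hp.fX z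
    have c1 := (TT_XX h (f' x)).zpow_left l
    have c2 := (TT_XX h (f' z)).zpow_left k
    have c3 : Commute (TT h ^ k) (TT h ^ l) := (Commute.refl (TT h)).zpow_zpow k l
    have e1 : f * XX h (x * z * x⁻¹ * z⁻¹) * f⁻¹ = (f * XX h x * f⁻¹) * (f * XX h z * f⁻¹) *
        (f * XX h x * f⁻¹)⁻¹ * (f * XX h z * f⁻¹)⁻¹ := by
      simp only [map_mul, map_inv]
      group
    rw [e1, hk, hl]
    simp only [map_mul, map_inv]
    set X := XX h (f' x)
    set Z := XX h (f' z)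
    set s := TT h ^ k
    set t := TT h ^ l
    have d1 : t * X = X * t := c1.eq
    have d2 : s * Z = Z * s := c2.eq
    have d3 : s * t = t * s := c3.eq
    have e2 : X * s * (Z * t) = X * Z * (s * t) := by
      calc X * s * (Z * t) = X * (s * Z) * t := by group
        _ = _ := by rw [d2]; group
    have e3 : Z * t * (X * s) = Z * X * (s * t) := by
      calc Z * t * (X * s) = Z * (t * X) * s := by group
        _ = Z * X * (t * s) := by rw [d1]; group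
        _ = _ := by rw [d3]
    calc X * s * (Z * t) * (X * s)⁻¹ * (Z * t)⁻¹ = X * s * (Z * t) * (Z * t * (X * s))⁻¹ := by
          group
      _ = X * Z * X⁻¹ * Z⁻¹ := by rw [e2, e3]; group
  exact h1 hy

/-- The commutators whose push is in `N`. -/
noncomputable def Kc (h : IsSurf a b) (N : Subgroup (MulAut G)) : Subgroup (Fr n) :=
  commutator (Fr n) ⊓ N.comap (XX h)

variable {h : IsSurf a b} {N : Subgroup (MulAut G)}

theorem mem_Kc {y : Fr n} : y ∈ Kc h N ↔ y ∈ commutator (Fr n) ∧ XX h y ∈ N := Iff.rfl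

theorem Kc_normal (hN : ∀ f ∈ MMs h, ∀ x ∈ N, f * x * f⁻¹ ∈ N) : (Kc h N).Normal := by
  refine ⟨fun y hy r => ⟨?_, ?_⟩⟩
  · exact (inferInstance : (commutator (Fr n)).Normal).conj_mem _ hy.1 r
  · change XX h (r * y * r⁻¹) ∈ N
    rw [map_mul, map_mul, map_inv]
    exact hN _ (XX_mem h r) _ hy.2

theorem Kc_pair (hN : ∀ f ∈ MMs h, ∀ x ∈ N, f * x * f⁻¹ ∈ N) {f' : MulAut (Fr n)} {f : MulAut G}
    (hp : Pair h f' f) (hf : f ∈ MMs h) {y : Fr n} (hy : y ∈ Kc h N) : f' y ∈ Kc h N := by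
  refine ⟨?_, ?_⟩
  · have h1 : (commutator (Fr n)).Characteristic := inferInstance
    have h2 := Subgroup.characteristic_iff_comap_eq.1 h1 f'
    have h3 := hy.1
    rw [← h2] at h3
    exact h3
  · change XX h (f' y) ∈ N
    rw [← pair_XX hp hy.1]
    exact hN _ hf _ hy.2

theorem KK_Kc (hN : ∀ f ∈ MMs h, ∀ x ∈ N, f * x * f⁻¹ ∈ N) :
    KK h n ((Kc h N).map (jR a b)) := by
  constructor
  · intro r hr k hk
    obtain ⟨ρ, rfl⟩ := Hd_range hr
    obtain ⟨κ, hκ, rfl⟩ := hk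
    exact ⟨_, (Kc_normal hN).conj_mem _ hκ ρ, by rw [map_mul, map_mul, map_inv]⟩
  · intro f hf k hk
    obtain ⟨κ, hκ, rfl⟩ := hk
    obtain ⟨f', hp⟩ := exists_pair h hf
    exact ⟨_, Kc_pair hN hp (MR_MMs h _ _ hf) hκ, (hp.fj κ).symm⟩

theorem comm_mem {F : Type*} [Group F] (x y : F) : x * y * x⁻¹ * y⁻¹ ∈ commutator F :=
  Subgroup.commutator_mem_commutator (Subgroup.mem_top x) (Subgroup.mem_top y)

/-- The power of the twist is trivial modulo `N`. -/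
theorem kill (hN : ∀ f ∈ MMs h, ∀ x ∈ N, f * x * f⁻¹ ∈ N) {x y w : Fr n} {k : ℤ}
    (hk : XX h (x * y * x⁻¹ * y⁻¹) * TT h ^ k ∈ N) {f' g' : MulAut (Fr n)} {f g : MulAut G}
    (hf : Pair h f' f) (hfM : f ∈ MMs h) (hg : Pair h g' g) (hgM : g ∈ MMs h)
    (f1 : f' x = x) (f2 : f' y = y * w) (g1 : g' x = x) (g2 : g' y = w) :
    XX h (x * y * x⁻¹ * y⁻¹) ∈ N := by
  have key : ∀ {e' : MulAut (Fr n)} {e : MulAut G}, Pair h e' e → e ∈ MMs h → e' x = x →
      XX h (x * e' y * x⁻¹ * (e' y)⁻¹) * TT h ^ k ∈ N := by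
    intro e' e he heM e1
    have h1 := hN _ heM _ hk
    have h2 := pair_XX he (comm_mem x y)
    have h3 := ((comm_TT h he.fj he.fa he.fb).zpow_right k).eq
    have h4 : e * (XX h (x * y * x⁻¹ * y⁻¹) * TT h ^ k) * e⁻¹ =
        XX h (x * e' y * x⁻¹ * (e' y)⁻¹) * TT h ^ k := by
      calc e * (XX h (x * y * x⁻¹ * y⁻¹) * TT h ^ k) * e⁻¹ =
          e * XX h (x * y * x⁻¹ * y⁻¹) * e⁻¹ * (e * TT h ^ k) * e⁻¹ := by group
        _ = e * XX h (x * y * x⁻¹ * y⁻¹) * e⁻¹ * TT h ^ k := by rw [h3]; group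
        _ = _ := by rw [h2]; simp only [map_mul, map_inv, e1]
    rwa [h4] at h1
  have h1 := key hf hfM f1
  have h2 := key hg hgM g1
  rw [f2] at h1
  rw [g2] at h2
  have h3 := hN _ (XX_mem h y) _ h2
  have h4 : XX h (x * (y * w) * x⁻¹ * (y * w)⁻¹) * TT h ^ k =
      XX h (x * y * x⁻¹ * y⁻¹) *
        (XX h y * (XX h (x * w * x⁻¹ * w⁻¹) * TT h ^ k) * (XX h y)⁻¹) := by
    have c1 := ((TT_XX h y).inv_right.zpow_left k).eq
    calc XX h (x * (y * w) * x⁻¹ * (y * w)⁻¹) * TT h ^ k =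
        XX h ((x * y * x⁻¹ * y⁻¹) * (y * (x * w * x⁻¹ * w⁻¹) * y⁻¹)) * TT h ^ k := by
          congr 2
          group
      _ = XX h (x * y * x⁻¹ * y⁻¹) * (XX h y * XX h (x * w * x⁻¹ * w⁻¹) *
          ((XX h y)⁻¹ * TT h ^ k)) := by
          rw [map_mul (XX h) (x * y * x⁻¹ * y⁻¹), map_mul (XX h) (y * (x * w * x⁻¹ * w⁻¹)) y⁻¹,
            map_mul (XX h) y, map_inv (XX h) y]
          group
      _ = _ := by rw [← c1]; group
  rw [h4] at h1
  exact (N.mul_mem_cancel_right h3).1 h1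

/-- All handles commute exactly. -/
theorem CC_exact (hN : ∀ f ∈ MMs h, ∀ x ∈ N, f * x * f⁻¹ ∈ N) (hn : 3 ≤ n)
    (hc : ∀ i j : Fin n, i ≠ j → ∀ x ∈ Hf n i, ∀ y ∈ Hf n j,
      ∃ k : ℤ, XX h (x * y * x⁻¹ * y⁻¹) * TT h ^ k ∈ N) :
    ∀ i j, i < j → j < n → CC (KK_Kc hN) i j := by
  obtain ⟨k, hk⟩ := hc ⟨0, by omega⟩ ⟨2, by omega⟩ (by simp [Fin.ext_iff]) _ (Hf_a _) _ (Hf_b _)
  obtain ⟨μ, hμ, μ1⟩ := slideR h 1 (by omega)
  obtain ⟨σ, hσ, σ1, -⟩ := exists_swap' h 1 (by omega)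
  have hμ0 := (MR_fix h hμ 0 (Or.inl (by omega))).1
  have hσ0 := (MR_fix h hσ 0 (Or.inl (by omega))).1
  have hμM : μ ∈ MR h 0 n := MR_mono h (Nat.zero_le _) (by omega) hμ
  have hσM : σ ∈ MR h 0 n := MR_mono h (Nat.zero_le _) (by omega) hσ
  obtain ⟨μ', pμ⟩ := exists_pair h hμM
  obtain ⟨σ', pσ⟩ := exists_pair h hσM
  have ea : jR a b (of (Sum.inl ⟨0, by omega⟩)) = ex a 0 := jR_ex_a (n := n) ⟨0, by omega⟩
  have eb2 : jR a b (of (Sum.inr ⟨2, by omega⟩)) = ex b 2 := jR_ex_b (n := n) ⟨2, by omega⟩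
  have eb1 : jR a b (of (Sum.inr ⟨1, by omega⟩)) = ex b 1 := jR_ex_b (n := n) ⟨1, by omega⟩
  have h1 := kill hN (w := of (Sum.inr ⟨1, by omega⟩)) hk pμ (MR_MMs h _ _ hμM) pσ
    (MR_MMs h _ _ hσM)
    (by apply jR_injective h; rw [← pμ.fj, ea, hμ0])
    (by apply jR_injective h; rw [← pμ.fj, eb2, μ1, map_mul, eb2, eb1])
    (by apply jR_injective h; rw [← pσ.fj, ea, hσ0])
    (by apply jR_injective h; rw [← pσ.fj, eb2, σ1.2, eb1])
  have h2 : ex b 2 ∈ Cz (KK_Kc hN) (ex a 0) := by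
    refine ⟨b_Hd (Nat.zero_le _) (by omega), ⟨_, ⟨comm_mem _ _, h1⟩, ?_⟩⟩
    simp only [map_mul, map_inv, ea, eb2]
  have h3 := Hd_le_Cz (KK_Kc hN) (by omega : 2 < n) (Nat.le_succ n)
    (a_Hd le_rfl (by omega)) h2
  have h4 : CC (KK_Kc hN) 0 (1 + 1) := by
    intro x hx y hy
    have h5 := Cz_symm (KK_Kc hN) (a_Hd le_rfl (by omega)) (h3 hy)
    obtain ⟨B, hB, B1, B2⟩ := exists_B h 0 (by omega)
    have h6 := Cz_map (KK_Kc hN) (MR_mono h le_rfl (by omega) hB) h5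
    rw [B1, MR_fix_Hd h (Or.inr (by omega)) hB hy] at h6
    have h7 := Subgroup.mul_mem _ (Subgroup.inv_mem _ h5) h6
    rw [inv_mul_cancel_left] at h7
    have h8 : Hd a b 0 (0 + 1) ≤ Cz (KK_Kc hN) y := by
      rw [Hd, Subgroup.closure_le]
      rintro g ⟨l, -, h9, hg⟩
      have hl : l = 0 := by omega
      subst hl
      rcases hg with rfl | rfl
      · exact h5
      · exact h7
    exact Cz_symm (KK_Kc hN) (Hd_mono le_rfl (by omega) hy |> fun h9 => Hd_mono (Nat.zero_le _) le_rfl h9) (h8 hx)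
  exact CC_all (Nat.le_succ n) (by omega) h4

end

end Pool.MP_59b15d_al.H95G
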