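import Mathlib
import Pool.Agent.H.MP_59b15d_al.h95g.Gr

set_option autoImplicit false

/-!
# The growth theorem: final form

The pushes of the last handle, modulo a subgroup of index smaller than `2 ^ binom(n + 1, 3)`,
satisfy the relations of the Heisenberg group.
-/

namespace Pool.MP_59b15d_al.H95G

open Pool.MP_59b15d_al.H24T Pool.MP_59b15d_al.H76R Pool.MP_59b15d_al.H73E
open Pool.MP_59b15d_al.H60G
open FreeGroup (of)

/-- The commutator of one handle in the free group. -/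
def cf {n : ℕ} (i : Fin n) : Fr n :=
  of (Sum.inl i) * of (Sum.inr i) * (of (Sum.inl i))⁻¹ * (of (Sum.inr i))⁻¹

theorem cf_Hf {n : ℕ} (i : Fin n) : cf i ∈ Hf n i :=
  Subgroup.mul_mem _ (Subgroup.mul_mem _ (Subgroup.mul_mem _ (Hf_a i) (Hf_b i))
    (Subgroup.inv_mem _ (Hf_a i))) (Subgroup.inv_mem _ (Hf_b i))

theorem cf_comm {n : ℕ} (i : Fin n) : cf i ∈ commutator (Fr n) := comm_mem _ _

/-- A computation. -/
theorem torus_eq {Q : Type*} [Group Q] {A B C D : Q} (hAC : Commute A C) (hAD : Commute A D)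
    (hBC : Commute B C) (hBD : Commute B D)
    (h0 : A * (C⁻¹ * B) * (D * (C⁻¹ * B)) = D * (C⁻¹ * B) * (A * (C⁻¹ * B))) :
    A * B * A⁻¹ * B⁻¹ = C * D * C⁻¹ * D⁻¹ := by
  set c := C⁻¹ with hc
  have hAc : Commute A c := hAC.inv_right
  have hBc : Commute B c := hBC.inv_right
  have r1 : ∀ z, A * (c * z) = c * (A * z) := fun z => by
    rw [← mul_assoc, hAc.eq, mul_assoc]
  have r2 : ∀ z, A * (D * z) = D * (A * z) := fun z => by
    rw [← mul_assoc, hAD.eq, mul_assoc]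
  have r3 : ∀ z, B * (c * z) = c * (B * z) := fun z => by
    rw [← mul_assoc, hBc.eq, mul_assoc]
  have r4 : ∀ z, B * (D * z) = D * (B * z) := fun z => by
    rw [← mul_assoc, hBD.eq, mul_assoc]
  simp only [mul_assoc, r1, r2, r3, r4] at h0
  have hZ : ∀ {z : Q}, Commute A z → Commute B z → Commute (A * B * A⁻¹ * B⁻¹) z :=
    fun h1 h2 => ((h1.mul_left h2).mul_left h1.inv_left).mul_left h2.inv_left
  have h1 : A * B * A⁻¹ * B⁻¹ = c⁻¹ * D⁻¹ * c⁻¹ * D * c * c := by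
    have h2 : c * (D * (c * (A * (B * B)))) = D * (c * (c * (B * (A * B)))) := h0
    calc A * B * A⁻¹ * B⁻¹ = c⁻¹ * D⁻¹ * c⁻¹ * (c * (D * (c * (A * (B * B))))) *
        (B⁻¹ * A⁻¹ * B⁻¹) := by group
      _ = _ := by rw [h2]; group
  have h2 : A * B * A⁻¹ * B⁻¹ = D⁻¹ * c⁻¹ * D * c := by
    have h3 := (hZ hAc hBc).eq
    calc A * B * A⁻¹ * B⁻¹ = c * (A * B * A⁻¹ * B⁻¹) * c⁻¹ := by rw [← h3]; group
      _ = _ := by rw [h1]; group
  have h3 := (hZ hAD hBD).eq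
  calc A * B * A⁻¹ * B⁻¹ = D * (A * B * A⁻¹ * B⁻¹) * D⁻¹ := by rw [← h3]; group
    _ = _ := by rw [h2, hc]; group

section

variable {n : ℕ} {G : Type*} [Group G] {a b : Fin (n + 1) → G} {h : IsSurf a b}
  {N : Subgroup (MulAut G)}

/-- The relation between the commutators of two consecutive handles. -/
theorem cf_eq (hN : ∀ f ∈ MMs h, ∀ x ∈ N, f * x * f⁻¹ ∈ N)
    (hR : ∀ i j : Fin n, i ≠ j → ∀ x ∈ Hf n i, ∀ y ∈ Hf n j, x * y * x⁻¹ * y⁻¹ ∈ Kc h N)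
    {i j : Fin n} (hij : (j : ℕ) = i + 1) : cf i * (cf j)⁻¹ ∈ Kc h N := by
  have hn := Kc_normal hN
  have hne := ne_of_hij hij
  have h1 := Kc_pair hN (pair_TC h hij) (MR_MMs h _ _ (TC_mem h (lo := 0) (hi := n + 1)
    i.castSucc j.castSucc (cs_hij hij) (Nat.zero_le _) j.castSucc.2))
    (hR i j hne _ (Hf_a i) _ (Hf_b j))
  simp only [map_mul, map_inv, FC_ai, FC_bj] at h1
  have hcomm : ∀ {x y : Fr n}, x * y * x⁻¹ * y⁻¹ ∈ Kc h N →
      (QuotientGroup.mk' (Kc h N) x) * (QuotientGroup.mk' (Kc h N) y) =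
      (QuotientGroup.mk' (Kc h N) y) * (QuotientGroup.mk' (Kc h N) x) := by
    intro x y hxy
    have h2 : QuotientGroup.mk' (Kc h N) (x * y * x⁻¹ * y⁻¹) = 1 :=
      (QuotientGroup.eq_one_iff _).2 hxy
    simp only [map_mul, map_inv] at h2
    have h3 := mul_inv_eq_one.1 h2
    exact (mul_inv_eq_iff_eq_mul.1 h3)
  have h2 := torus_eq (hcomm (hR i j hne _ (Hf_a i) _ (Hf_a j)))
    (hcomm (hR i j hne _ (Hf_a i) _ (Hf_b j))) (hcomm (hR i j hne _ (Hf_b i) _ (Hf_a j)))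
    (hcomm (hR i j hne _ (Hf_b i) _ (Hf_b j))) (by
      have h3 := hcomm h1
      simpa only [map_mul, map_inv] using h3)
  apply (QuotientGroup.eq_one_iff _).1
  change QuotientGroup.mk' (Kc h N) (cf i * (cf j)⁻¹) = 1
  rw [map_mul, map_inv, mul_inv_eq_one, cf, cf]
  simpa only [map_mul, map_inv] using h2

theorem cf_eq_all (hN : ∀ f ∈ MMs h, ∀ x ∈ N, f * x * f⁻¹ ∈ N)
    (hR : ∀ i j : Fin n, i ≠ j → ∀ x ∈ Hf n i, ∀ y ∈ Hf n j, x * y * x⁻¹ * y⁻¹ ∈ Kc h N)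
    (i j : Fin n) : cf i * (cf j)⁻¹ ∈ Kc h N := by
  have h1 : ∀ k, ∀ i : Fin n, (i : ℕ) = k → cf ⟨0, lt_of_le_of_lt (Nat.zero_le _) i.2⟩ *
      (cf i)⁻¹ ∈ Kc h N := by
    intro k
    induction k with
    | zero =>
      intro i hi
      have : i = ⟨0, lt_of_le_of_lt (Nat.zero_le _) i.2⟩ := Fin.ext hi
      rw [← this, mul_inv_cancel]
      exact Subgroup.one_mem _
    | succ k ih =>
      intro i hi
      have hk : k < n := by
        have := i.2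
        omega
      have h2 := ih ⟨k, hk⟩ rfl
      have h3 := cf_eq hN hR (i := ⟨k, hk⟩) (j := i) hi
      have h4 := Subgroup.mul_mem _ h2 h3
      rwa [mul_assoc, inv_mul_cancel_left] at h4
  have h2 := Subgroup.mul_mem _ (Subgroup.inv_mem _ (h1 _ i rfl)) (h1 _ j rfl)
  rwa [mul_inv_rev, inv_inv, mul_assoc, inv_mul_cancel_left] at h2

theorem cf_central (hN : ∀ f ∈ MMs h, ∀ x ∈ N, f * x * f⁻¹ ∈ N) (hn : 2 ≤ n)
    (hR : ∀ i j : Fin n, i ≠ j → ∀ x ∈ Hf n i, ∀ y ∈ Hf n j, x * y * x⁻¹ * y⁻¹ ∈ Kc h N)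
    (i : Fin n) (z : Fr n) : cf i * z * (cf i)⁻¹ * z⁻¹ ∈ Kc h N := by
  have hnm := Kc_normal hN
  have h1 : ∀ (j : Fin n) (z : Fr n), z ∈ Hf n j → cf i * z * (cf i)⁻¹ * z⁻¹ ∈ Kc h N := by
    intro j z hz
    obtain ⟨l, hl⟩ : ∃ l : Fin n, l ≠ j := by
      by_cases hj : (j : ℕ) = 0
      · exact ⟨⟨1, by omega⟩, fun h1 => by
          rw [← h1] at hj
          simp at hj⟩
      · exact ⟨⟨0, by omega⟩, fun h1 => hj (by rw [← h1])⟩
    have h2 := hR l j hl _ (cf_Hf l) _ hz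
    have h3 := cf_eq_all hN hR i l
    have h4 := hnm.conj_mem _ (Subgroup.inv_mem _ h3) z
    have h5 := hnm.conj_mem _ (Subgroup.mul_mem _ h2 h4) (cf i * (cf l)⁻¹)
    have h6 := Subgroup.mul_mem _ h5 h3
    have h7 : cf i * (cf l)⁻¹ * (cf l * z * (cf l)⁻¹ * z⁻¹ * (z * (cf i * (cf l)⁻¹)⁻¹ * z⁻¹)) *
        (cf i * (cf l)⁻¹)⁻¹ * (cf i * (cf l)⁻¹) = cf i * z * (cf i)⁻¹ * z⁻¹ := by group
    rwa [h7] at h6
  induction z using fr_induction with
  | h1 =>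
    have h2 : cf i * 1 * (cf i)⁻¹ * 1⁻¹ = 1 := by group
    rw [h2]
    exact Subgroup.one_mem _
  | ha k => exact h1 k _ (Hf_a k)
  | hb k => exact h1 k _ (Hf_b k)
  | hm x y hx hy =>
    have h2 := Subgroup.mul_mem _ hx (hnm.conj_mem _ hy x)
    have h3 : cf i * x * (cf i)⁻¹ * x⁻¹ * (x * (cf i * y * (cf i)⁻¹ * y⁻¹) * x⁻¹) =
        cf i * (x * y) * (cf i)⁻¹ * (x * y)⁻¹ := by group
    rwa [h3] at h2
  | hi x hx =>
    have h2 := hnm.conj_mem _ (Subgroup.inv_mem _ hx) x⁻¹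
    have h3 : x⁻¹ * (cf i * x * (cf i)⁻¹ * x⁻¹)⁻¹ * x⁻¹⁻¹ = cf i * x⁻¹ * (cf i)⁻¹ * x⁻¹⁻¹ := by
      group
    rwa [h3] at h2

/-- **Growth theorem.**  A subgroup normalised by the mapping class group of a surface of genus
`n + 1 ≥ 4` and of index smaller than `2 ^ binom(n + 1, 3)` in the mapping class group of the first
`n` handles contains the pushes of the last handle around: commutators of elements of different
handles; quotients of the commutators of two handles; commutators of these with all elements. -/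
theorem growth (h : IsSurf a b) (N : Subgroup (MulAut G))
    (hN : ∀ f ∈ MMs h, ∀ x ∈ N, f * x * f⁻¹ ∈ N) (hn : 3 ≤ n)
    (hf : N.relIndex (MR h 0 n) ≠ 0) (hlt : N.relIndex (MR h 0 n) < 2 ^ (n + 1).choose 3) :
    (∀ i j : Fin n, i ≠ j → ∀ x ∈ Hf n i, ∀ y ∈ Hf n j, XX h (x * y * x⁻¹ * y⁻¹) ∈ N) ∧
    (∀ i j : Fin n, XX h (cf i * (cf j)⁻¹) ∈ N) ∧
    ∀ (i : Fin n) (z : Fr n), XX h (cf i * z * (cf i)⁻¹ * z⁻¹) ∈ N := by
  have h1 := CC_exact hN hn fun i j hij x hx y hy => growth_zero h N hN hf hlt hij hx hy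
  have h2 : ∀ i j : Fin n, i ≠ j → ∀ x ∈ Hf n i, ∀ y ∈ Hf n j, x * y * x⁻¹ * y⁻¹ ∈ Kc h N :=
    fun i j hij x hx y hy => comm_of_CC h1 hij hx hy
  exact ⟨fun i j hij x hx y hy => (h2 i j hij x hx y hy).2, fun i j => (cf_eq_all hN h2 i j).2,
    fun i z => (cf_central hN (by omega) h2 i z).2⟩

/-- The growth theorem, for the index in the whole mapping class group. -/
theorem growth' (h : IsSurf a b) (N : Subgroup (MulAut G))
    (hN : ∀ f ∈ MMs h, ∀ x ∈ N, f * x * f⁻¹ ∈ N) (hn : 3 ≤ n)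
    (hf : N.relIndex (MMs h) ≠ 0) (hlt : N.relIndex (MMs h) < 2 ^ (n + 1).choose 3) :
    (∀ i j : Fin n, i ≠ j → ∀ x ∈ Hf n i, ∀ y ∈ Hf n j, XX h (x * y * x⁻¹ * y⁻¹) ∈ N) ∧
    (∀ i j : Fin n, XX h (cf i * (cf j)⁻¹) ∈ N) ∧
    ∀ (i : Fin n) (z : Fr n), XX h (cf i * z * (cf i)⁻¹ * z⁻¹) ∈ N := by
  have h1 := Subgroup.relIndex_le_of_le_right (MR_MMs h 0 n) hf
  refine growth h N hN hn ?_ (by omega)
  intro h2
  exact hf (Subgroup.relIndex_eq_zero_of_le_right (MR_MMs h 0 n) h2)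

/-- The growth theorem with one subgroup: all commutators of elements of different handles, and
everything which follows from them, lie in a normal subgroup of the free group. -/
theorem growth_zero' (h : IsSurf a b) (N : Subgroup (MulAut G))
    (hN : ∀ f ∈ MMs h, ∀ x ∈ N, f * x * f⁻¹ ∈ N) (hf : N.relIndex (MMs h) ≠ 0)
    (hlt : N.relIndex (MMs h) < 2 ^ (n + 1).choose 3) {i j : Fin n} (hij : i ≠ j)
    {x y : Fr n} (hx : x ∈ Hf n i) (hy : y ∈ Hf n j) :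
    ∃ k : ℤ, XX h (x * y * x⁻¹ * y⁻¹) * TT h ^ k ∈ N := by
  have h1 := Subgroup.relIndex_le_of_le_right (MR_MMs h 0 n) hf
  refine growth_zero h N hN ?_ (by omega) hij hx hy
  intro h2
  exact hf (Subgroup.relIndex_eq_zero_of_le_right (MR_MMs h 0 n) h2)

end

end Pool.MP_59b15d_al.H95G
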